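import Pool.Agent.Lib.MP_1be6c9_co.Gold.Defs

/-!
MODULE CoFree (about 150 lines). Two labels that are free at the same basic point are far apart.

Notation: `F = fr x`, `d = finrank`, `g0 = ⟪v a, v b⟫`, `α = |x a| < 1`, `β = |x b| < 1`.
STEP 1 (`corner`). For reals `p, q` with `p, q ∈ {1, -1}`:
`d - k < (p - x a)^2 + (q - x b)^2 + 2 (p - x a)(q - x b) g0 + (d - 2) - X0`,
`X0 = ∑_{i ∈ F, i ≠ a, b} x i ^ 2 ≥ 0`. Proof: `rounding v u` with `u` = `x` except `u a = p`,
`u b = q`; `∑ u v = (p - x a) • v a + (q - x b) • v b` (since `∑ x v = 0`), its squared norm is the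
first three terms; `∑ (1 - u i ^ 2) * ‖v i‖^2` is the sum over `F \ {a,b}` of `1 - x i ^ 2`
(`u i ^ 2 = 1` for `i = a, b` and off `F`), and `card (F \ {a,b}) = d - 2`; `H` for the signing.
One may drop `X0`. So with `C p q = (p - x a)^2 + (q - x b)^2 + 2 (p - x a)(q - x b) g0`:
`2 - k < C p q` for the four corners.
STEP 2 (scalar lemma, no vectors). Let `xa, xb, g0, k` be reals with `|xa|, |xb| < 1`, `k ≤ 1`,
`2 - k < C p q` for the four corners. Then `xa^2 + xb^2 + 2 |g0| (1-|xa|)(1-|xb|) < k`. Replacing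
`(xa, g0)` by `(-xa, -g0)` (the corners are permuted, `p ↦ -p`), and the same for `b`, one may
assume `xa, xb ≥ 0`; by symmetry `xa ≥ xb`. Then
(i) `(xa+xb)/2 * C 1 1 + (1-xb)/2 * C 1 (-1) + (1-xa)/2 * C (-1) 1
 = 2 - xa^2 - xb^2 - 2 g0 (1-xa)(1-xb)` (identity, weights `≥ 0` with sum `1`), so
`xa^2 + xb^2 + 2 g0 (1-xa)(1-xb) < k`: done if `g0 ≥ 0`;
(ii) `(1+xb)/2 * C 1 1 + (xa-xb)/2 * C 1 (-1) + (1-xa)/2 * C (-1) (-1)
 = 2 - xa^2 - xb^2 + 2 g0 (1-xa)(1+xb)`, so `xa^2 + xb^2 - 2 g0 (1-xa)(1+xb) < k`, and for `g0 < 0`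
`-g0 (1-xa)(1+xb) ≥ |g0| (1-xa)(1-xb)`.
STEP 3. `(2-k)|g0| < k`: with `α, β ∈ [0,1)`, `P = (1-α)(1-β) > 0`, `2 |g0| P < k - α² - β²` and
`(k - α² - β²)(2 - k) ≤ 2 k P` because `2kP - (k-α²-β²)(2-k) = k² - 2k(α+β) + (2-k)(α+β)²
 - 4 α β (1-k) ≥ (k - α - β)²` (use `4 α β ≤ (α+β)²`, `k ≤ 1`). Hence
`(2-k) |g0| * 2P < 2 k P`.
-/

namespace Pool.Agent.Lib.MP_1be6c9_co.Gold

open Finset

variable {E : Type*} [NormedAddCommGroup E] [InnerProductSpace ℝ E]

private theorem coFree_corner {κ : Type*} [Fintype κ] [DecidableEq κ] [FiniteDimensional ℝ E]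
    (v : κ → E) (hv : ∀ i, ‖v i‖ = 1) (k : ℝ)
    (H : Long v (Module.finrank ℝ E - k)) (x : κ → ℝ) (hx : Bas v x) (a b : κ)
    (ha : a ∈ fr x) (hb : b ∈ fr x) (hab : a ≠ b) (p q : ℝ) (hp : p = 1 ∨ p = -1)
    (hq : q = 1 ∨ q = -1) :
    2 - k < (p - x a) ^ 2 + (q - x b) ^ 2 + 2 * (p - x a) * (q - x b) * inner ℝ (v a) (v b) := by
  obtain ⟨hx1, hx2, hx3⟩ := hx
  set u : κ → ℝ := fun i => x i + (if i = a then p - x a else 0) +
    (if i = b then q - x b else 0) with hu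
  have hua : u a = p := by simp [hu, hab]
  have hub : u b = q := by simp [hu, hab.symm]
  have huo : ∀ i, i ≠ a → i ≠ b → u i = x i := by
    intro i h1 h2
    simp [hu, h1, h2]
  have hu1 : ∀ i, |u i| ≤ 1 := by
    intro i
    by_cases h1 : i = a
    · rw [h1, hua]
      rcases hp with h | h <;> simp [h]
    · by_cases h2 : i = b
      · rw [h2, hub]
        rcases hq with h | h <;> simp [h]
      · rw [huo i h1 h2]
        exact hx1 i
  obtain ⟨η, hη, hle⟩ := rounding v u hu1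
  have hH := H η hη
  have hsum : ∑ i, u i • v i = (p - x a) • v a + (q - x b) • v b := by
    have e : ∀ i, u i • v i = x i • v i + (if i = a then (p - x a) • v a else 0) +
        (if i = b then (q - x b) • v b else 0) := by
      intro i
      simp only [hu, add_smul, ite_smul, zero_smul]
      congr 1
      · congr 1
        by_cases h : i = a
        · simp [h]
        · simp [h]
      · by_cases h : i = b
        · simp [h]
        · simp [h]
    simp only [e, Finset.sum_add_distrib, hx2, Finset.sum_ite_eq', Finset.mem_univ, if_true,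
      zero_add]
  have hnorm : ‖(p - x a) • v a + (q - x b) • v b‖ ^ 2 = (p - x a) ^ 2 + (q - x b) ^ 2 +
      2 * (p - x a) * (q - x b) * inner ℝ (v a) (v b) := by
    rw [norm_add_sq_real, norm_smul, norm_smul, hv a, hv b, inner_smul_left, inner_smul_right]
    simp only [mul_one, Real.norm_eq_abs, sq_abs, conj_trivial]
    ring
  have hcard : (((((fr x).erase a).erase b).card : ℕ) : ℝ) = (Module.finrank ℝ E : ℝ) - 2 := by
    have hb' : b ∈ (fr x).erase a := Finset.mem_erase.2 ⟨hab.symm, hb⟩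
    have h1 := Finset.card_erase_add_one hb'
    have h2 := Finset.card_erase_add_one ha
    rw [hx3] at h2
    have h3 : (((((fr x).erase a).erase b).card : ℕ) : ℝ) + 1 + 1 = Module.finrank ℝ E := by
      exact_mod_cast (by omega : (((fr x).erase a).erase b).card + 1 + 1 = Module.finrank ℝ E)
    linarith
  have hrest : ∑ i, (1 - u i ^ 2) * ‖v i‖ ^ 2 ≤ (Module.finrank ℝ E : ℝ) - 2 := by
    rw [← hcard, Finset.card_eq_sum_ones, Nat.cast_sum, Nat.cast_one,
      ← Finset.sum_subset (Finset.subset_univ (((fr x).erase a).erase b))]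
    · refine Finset.sum_le_sum fun i _ => ?_
      rw [hv i]
      nlinarith [sq_nonneg (u i)]
    · intro i _ hi
      have h0 : u i ^ 2 = 1 := by
        by_cases h1 : i = a
        · rw [h1, hua]
          rcases hp with h | h <;> simp [h]
        · by_cases h2 : i = b
          · rw [h2, hub]
            rcases hq with h | h <;> simp [h]
          · rw [huo i h1 h2]
            have h3 : i ∉ fr x := fun h => hi (Finset.mem_erase.2 ⟨h2, Finset.mem_erase.2 ⟨h1, h⟩⟩)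
            rcases (not_mem_fr x hx1 i).1 h3 with h | h <;> simp [h]
      rw [h0, sub_self, zero_mul]
  rw [hsum, hnorm] at hle
  linarith

private theorem coFree_core (α β g k : ℝ) (ha0 : 0 ≤ α) (ha1 : α < 1) (hb0 : 0 ≤ β)
    (hba : β ≤ α)
    (h11 : 2 - k < (1 - α) ^ 2 + (1 - β) ^ 2 + 2 * (1 - α) * (1 - β) * g)
    (h1m : 2 - k < (1 - α) ^ 2 + (-1 - β) ^ 2 + 2 * (1 - α) * (-1 - β) * g)
    (hm1 : 2 - k < (-1 - α) ^ 2 + (1 - β) ^ 2 + 2 * (-1 - α) * (1 - β) * g)
    (hmm : 2 - k < (-1 - α) ^ 2 + (-1 - β) ^ 2 + 2 * (-1 - α) * (-1 - β) * g) :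
    α ^ 2 + β ^ 2 + 2 * |g| * ((1 - α) * (1 - β)) < k := by
  have hb1 : β < 1 := lt_of_le_of_lt hba ha1
  have p1 : 0 ≤ (α + β) / 2 := by linarith
  have p2 : 0 < (1 - β) / 2 := by linarith
  have p3 : 0 < (1 - α) / 2 := by linarith
  have p4 : 0 < (1 + β) / 2 := by linarith
  have p5 : 0 ≤ (α - β) / 2 := by linarith
  rcases le_or_gt 0 g with hg | hg
  · rw [abs_of_nonneg hg]
    have q1 := mul_nonneg p1 (sub_nonneg.2 h11.le)
    have q2 := mul_pos p2 (sub_pos.2 h1m)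
    have q3 := mul_pos p3 (sub_pos.2 hm1)
    nlinarith
  · rw [abs_of_neg hg]
    have q1 := mul_pos p4 (sub_pos.2 h11)
    have q2 := mul_nonneg p5 (sub_nonneg.2 h1m.le)
    have q3 := mul_pos p3 (sub_pos.2 hmm)
    have q4 : α ^ 2 + β ^ 2 - 2 * g * ((1 - α) * (1 + β)) < k := by nlinarith
    have q5 : 0 ≤ (-g) * ((1 - α) * β) :=
      mul_nonneg (by linarith) (mul_nonneg (by linarith) hb0)
    nlinarith

private theorem coFree_scal (α β g k : ℝ) (hk1 : k ≤ 1) (ha0 : 0 ≤ α) (ha1 : α < 1)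
    (hb0 : 0 ≤ β) (hb1 : β < 1)
    (h11 : 2 - k < (1 - α) ^ 2 + (1 - β) ^ 2 + 2 * (1 - α) * (1 - β) * g)
    (h1m : 2 - k < (1 - α) ^ 2 + (-1 - β) ^ 2 + 2 * (1 - α) * (-1 - β) * g)
    (hm1 : 2 - k < (-1 - α) ^ 2 + (1 - β) ^ 2 + 2 * (-1 - α) * (1 - β) * g)
    (hmm : 2 - k < (-1 - α) ^ 2 + (-1 - β) ^ 2 + 2 * (-1 - α) * (-1 - β) * g) :
    (2 - k) * |g| < k := by
  have key : α ^ 2 + β ^ 2 + 2 * |g| * ((1 - α) * (1 - β)) < k := by
    rcases le_total β α with h | h
    · exact coFree_core α β g k ha0 ha1 hb0 h h11 h1m hm1 hmm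
    · have := coFree_core β α g k hb0 hb1 ha0 h (by linarith) (by linarith) (by linarith)
        (by linarith)
      linarith
  have hP : 0 < (1 - α) * (1 - β) := mul_pos (by linarith) (by linarith)
  have h2 : (k - α ^ 2 - β ^ 2) * (2 - k) ≤ 2 * k * ((1 - α) * (1 - β)) := by
    nlinarith [sq_nonneg (k - α - β), mul_nonneg (sub_nonneg.2 hk1) (sq_nonneg (α - β))]
  have h3 : (2 - k) * (2 * |g| * ((1 - α) * (1 - β))) < (2 - k) * (k - α ^ 2 - β ^ 2) :=
    mul_lt_mul_of_pos_left (by linarith) (by linarith)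
  by_contra hcon
  push Not at hcon
  have h4 : k * (2 * ((1 - α) * (1 - β))) ≤ (2 - k) * |g| * (2 * ((1 - α) * (1 - β))) :=
    mul_le_mul_of_nonneg_right hcon (by linarith)
  nlinarith

theorem cofree {κ : Type*} [Fintype κ] [DecidableEq κ] [FiniteDimensional ℝ E] (v : κ → E)
    (hv : ∀ i, ‖v i‖ = 1) (k : ℝ) (hk0 : 0 < k) (hk1 : k ≤ 1)
    (H : Long v (Module.finrank ℝ E - k)) (x : κ → ℝ) (hx : Bas v x) (a b : κ)
    (ha : a ∈ fr x) (hb : b ∈ fr x) (hab : a ≠ b) :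
    (2 - k) * |inner ℝ (v a) (v b)| < k := by
  have _ := hk0
  have hc := coFree_corner v hv k H x hx a b ha hb hab
  have ha' : |x a| < 1 := (mem_fr x a).1 ha
  have hb' : |x b| < 1 := (mem_fr x b).1 hb
  have c11 := hc 1 1 (Or.inl rfl) (Or.inl rfl)
  have c1m := hc 1 (-1) (Or.inl rfl) (Or.inr rfl)
  have cm1 := hc (-1) 1 (Or.inr rfl) (Or.inl rfl)
  have cmm := hc (-1) (-1) (Or.inr rfl) (Or.inr rfl)
  generalize (inner ℝ (v a) (v b) : ℝ) = g at c11 c1m cm1 cmm ⊢
  rcases abs_cases (x a) with ⟨e1, _⟩ | ⟨e1, _⟩ <;> rcases abs_cases (x b) with ⟨e2, _⟩ | ⟨e2, _⟩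
  · exact coFree_scal (x a) (x b) g k hk1 (by linarith [abs_nonneg (x a)]) (by linarith)
      (by linarith [abs_nonneg (x b)]) (by linarith) c11 c1m cm1 cmm
  · have := coFree_scal (x a) (-x b) (-g) k hk1 (by linarith [abs_nonneg (x a)]) (by linarith)
      (by linarith [abs_nonneg (x b)]) (by linarith) (by linarith) (by linarith) (by linarith)
      (by linarith)
    rwa [abs_neg] at this
  · have := coFree_scal (-x a) (x b) (-g) k hk1 (by linarith [abs_nonneg (x a)]) (by linarith)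
      (by linarith [abs_nonneg (x b)]) (by linarith) (by linarith) (by linarith) (by linarith)
      (by linarith)
    rwa [abs_neg] at this
  · exact coFree_scal (-x a) (-x b) g k hk1 (by linarith [abs_nonneg (x a)]) (by linarith)
      (by linarith [abs_nonneg (x b)]) (by linarith) (by linarith) (by linarith) (by linarith)
      (by linarith)

end Pool.Agent.Lib.MP_1be6c9_co.Gold
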