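import Pool.Agent.Lib.MP_1be6c9_co.Gold.Defs

/-!
MODULE CombA (about 110 lines). Pure combinatorics of `Sys` (see Defs.lean): unique neighbours,
exchanges along neighbours, transitivity. In an exchange `Ex g θ x x' j l` with `x, x' ∈ V` one has
`|x j| = |x' l| = 1` (`not_mem_fr` and `cube`), so `θ ≤ x' l * x j * g l j ≤ |g l j|`.

`sys_unique`: take `x' , l0` with `Ex g θ x x' j l0` (`piv`). If `l` and `l'` are both neighbours of
`j` in `fr x`: an `l1 ∈ fr x`, `l1 ≠ l0`, with `θ ≤ |g l1 j|` is impossible because then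
`l1, j ∈ fr x' = insert j ((fr x).erase l0)`, `l1 ≠ j`, contradicting `co` for `x'`. So `l = l0 = l'`.
`sys_exch`: the label `l0` provided by `piv` is a neighbour of `j` in `fr x`, so `l0 = l`.
`sys_trans`: if two of the labels coincide it is trivial (use `sym` and `abs`). Let `i, j, l` be
distinct, `θ ≤ |g i j|`, `θ ≤ |g j l|`. There is `x ∈ V` with `j ∈ fr x` (any `x ∈ V`; if `j ∉ fr x`
exchange it in by `piv`). By `co`, `i, l ∉ fr x`. `sys_exch` (entering `i`, leaving `j`) gives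
`x' ∈ V` with `fr x' = insert i ((fr x).erase j)`; `l ∉ fr x'` (`l ≠ i`, `l ∉ fr x`). By `piv` at
`x'` the label `l` has a neighbour `m ∈ fr x'`. If `m = i`, done. Otherwise `m ∈ fr x`, `m ≠ j`,
and `m`, `j` are two neighbours of `l` in `fr x`, contradicting `sys_unique`.
-/

namespace Pool.Agent.Lib.MP_1be6c9_co.Gold

open Finset

variable {κ : Type*} [Fintype κ] [DecidableEq κ] {V : Set (κ → ℝ)} {g : κ → κ → ℝ} {θ : ℝ}
  {d : ℕ}

theorem sys_ex_abs (S : Sys V g θ d) {x x' : κ → ℝ} (hx : x ∈ V) (hx' : x' ∈ V) {j l : κ}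
    (h : Ex g θ x x' j l) : (x j = 1 ∨ x j = -1) ∧ (x' l = 1 ∨ x' l = -1) ∧ θ ≤ |g l j| := by
  obtain ⟨hj, hl, hfr, -, hθ⟩ := h
  have h1 := (not_mem_fr x (S.cube x hx) j).1 hj
  have hlj : l ≠ j := by
    rintro rfl
    exact hj hl
  have hl' : l ∉ fr x' := by
    rw [hfr, Finset.mem_insert, Finset.mem_erase]
    rintro (h | h)
    · exact hlj h
    · exact h.1 rfl
  have h2 := (not_mem_fr x' (S.cube x' hx') l).1 hl'
  refine ⟨h1, h2, ?_⟩
  have hp := le_abs_self (g l j)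
  have hn := neg_le_abs (g l j)
  rcases h1 with h1 | h1 <;> rcases h2 with h2 | h2 <;> rw [h1, h2] at hθ <;> linarith

theorem sys_unique (S : Sys V g θ d) {x : κ → ℝ} (hx : x ∈ V) {j : κ} (hj : j ∉ fr x) {l l' : κ}
    (hl : l ∈ fr x) (hl' : l' ∈ fr x) (h : θ ≤ |g l j|) (h' : θ ≤ |g l' j|) : l = l' := by
  obtain ⟨x', hx', l0, hE⟩ := S.piv x hx j hj
  have key : ∀ l1 ∈ fr x, θ ≤ |g l1 j| → l1 = l0 := by
    intro l1 h1 h2
    by_contra hne
    have hm : l1 ∈ fr x' := by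
      rw [hE.2.2.1, Finset.mem_insert, Finset.mem_erase]
      exact Or.inr ⟨hne, h1⟩
    have hm' : j ∈ fr x' := by
      rw [hE.2.2.1]
      exact Finset.mem_insert_self _ _
    have hne' : l1 ≠ j := by
      rintro rfl
      exact hj h1
    exact absurd h2 (not_le.2 (S.co x' hx' l1 hm j hm' hne'))
  rw [key l hl h, key l' hl' h']

theorem sys_exch (S : Sys V g θ d) {x : κ → ℝ} (hx : x ∈ V) {j : κ} (hj : j ∉ fr x) {l : κ}
    (hl : l ∈ fr x) (h : θ ≤ |g l j|) : ∃ x' ∈ V, Ex g θ x x' j l := by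
  obtain ⟨x', hx', l0, hE⟩ := S.piv x hx j hj
  have h0 := (sys_ex_abs S hx hx' hE).2.2
  have h1 : l0 = l := sys_unique S hx hj hE.2.1 hl h0 h
  subst h1
  exact ⟨x', hx', hE⟩

theorem sys_trans (S : Sys V g θ d) (hV : V.Nonempty) {i j l : κ} (h1 : Rel g θ i j)
    (h2 : Rel g θ j l) : Rel g θ i l := by
  rcases h1 with rfl | h1
  · exact h2
  rcases h2 with rfl | h2
  · exact Or.inr h1
  by_cases hil : i = l
  · exact Or.inl hil
  by_cases hij : i = j
  · subst hij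
    exact Or.inr h2
  by_cases hjl : j = l
  · subst hjl
    exact Or.inr h1
  -- a point with `j` in the free set
  have hx : ∃ x ∈ V, j ∈ fr x := by
    obtain ⟨x, hx⟩ := hV
    by_cases hj : j ∈ fr x
    · exact ⟨x, hx, hj⟩
    · obtain ⟨x', hx', l0, hE⟩ := S.piv x hx j hj
      refine ⟨x', hx', ?_⟩
      rw [hE.2.2.1]
      exact Finset.mem_insert_self _ _
  obtain ⟨x, hx, hj⟩ := hx
  have hi : i ∉ fr x := fun hi => absurd h1 (not_le.2 (S.co x hx i hi j hj hij))
  have hl : l ∉ fr x := fun hl => absurd h2 (not_le.2 (S.co x hx j hj l hl hjl))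
  have h1' : θ ≤ |g j i| := by rw [S.sym j i]; exact h1
  obtain ⟨x', hx', hE⟩ := sys_exch S hx hi hj h1'
  have hl' : l ∉ fr x' := by
    rw [hE.2.2.1, Finset.mem_insert, Finset.mem_erase]
    rintro (h | h)
    · exact hil h.symm
    · exact hl h.2
  obtain ⟨x'', hx'', m, hE'⟩ := S.piv x' hx' l hl'
  have hm := hE'.2.1
  have hm0 := (sys_ex_abs S hx' hx'' hE').2.2
  rw [hE.2.2.1, Finset.mem_insert, Finset.mem_erase] at hm
  rcases hm with rfl | hm
  · exact Or.inr hm0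
  · exact absurd (sys_unique S hx hl hm.2 hj hm0 h2) hm.1

end Pool.Agent.Lib.MP_1be6c9_co.Gold
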