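import Pool.Agent.Lib.MP_1be6c9_co.Gold.CombA

/-!
MODULE CombB (about 130 lines). Signs inside a class are consistent. Only `Sys`.

Let `i, j, l` be distinct and pairwise close. Choose `x0 ∈ V` with `j ∈ fr x0` (as in CombA).
`i, l ∉ fr x0` by `co`. Three exchanges (`sys_exch`):
`x0 → x1`: `i` enters, `j` leaves: `fr x1 = insert i (F.erase j)`, `F = fr x0`; `x1 = x0` off
`insert i F`; `0 < θ ≤ x1 j * x0 i * g j i`.
`x1 → x2`: `l` enters, `i` leaves: `fr x2 = insert l ((fr x1).erase i)`; `x2 = x1` off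
`insert l (fr x1)`; `θ ≤ x2 i * x1 l * g i l`; here `x1 l = x0 l` (`l ∉ insert i F`).
`x2 → x3`: `j` enters, `l` leaves: `fr x3 = insert j ((fr x2).erase l) = F`; `x3 = x2` off
`insert j (fr x2)`; `θ ≤ x3 l * x2 j * g l j`; here `x2 j = x1 j` (`j ∉ insert l (fr x1)`).
Also `x3 i = x2 i` (`i ∉ insert j (fr x2)`), and for `m ∉ F`, `m ≠ i, l`: `x3 m = x0 m`.
All the values `x0 i, x0 l, x1 j, x2 i, x3 l` are `± 1`. Multiply the three positive numbers
`x1 j x0 i g_ij`, `x2 i x0 l g_il`, `x3 l x1 j g_jl` : the product is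
`(x1 j)^2 * (x0 i * x2 i) * (x0 l * x3 l) * (g_ij g_jl g_il) > 0`. Suppose
`g_ij g_jl g_il ≤ 0`; then `(x0 i * x2 i) * (x0 l * x3 l) < 0`, so exactly one of the two labels is
flipped between `x0` and `x3`: either `x3 i = x0 i` and `x3 l = - x0 l`, contradicting `noflip` for
`x0, x3` and the label `l`, or `x3 l = x0 l` and `x3 i = - x0 i`, contradicting `noflip` for `i`.
-/

namespace Pool.Agent.Lib.MP_1be6c9_co.Gold

open Finset

variable {κ : Type*} [Fintype κ] [DecidableEq κ] {V : Set (κ → ℝ)} {g : κ → κ → ℝ} {θ : ℝ}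
  {d : ℕ}

theorem sys_sign (S : Sys V g θ d) (hV : V.Nonempty) {i j l : κ} (hij : i ≠ j) (hjl : j ≠ l)
    (hil : i ≠ l) (h1 : θ ≤ |g i j|) (h2 : θ ≤ |g j l|) (h3 : θ ≤ |g i l|) :
    0 < g i j * g j l * g i l := by
  obtain ⟨x0, hx0, hj0⟩ : ∃ x ∈ V, j ∈ fr x := by
    obtain ⟨x, hx⟩ := hV
    by_cases hj : j ∈ fr x
    · exact ⟨x, hx, hj⟩
    · obtain ⟨x', hx', l0, hE⟩ := S.piv x hx j hj
      exact ⟨x', hx', by rw [hE.2.2.1]; exact mem_insert_self _ _⟩
  have hi0 : i ∉ fr x0 := fun h => absurd (S.co x0 hx0 i h j hj0 hij) (not_lt.mpr h1)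
  have hl0 : l ∉ fr x0 := fun h => absurd (S.co x0 hx0 j hj0 l h hjl) (not_lt.mpr h2)
  obtain ⟨x1, hx1, hE1⟩ := sys_exch S hx0 hi0 hj0 (by rw [S.sym]; exact h1)
  have ha1 := sys_ex_abs S hx0 hx1 hE1
  obtain ⟨-, -, hf1, he1, hg1⟩ := hE1
  have hl1 : l ∉ fr x1 := by
    rw [hf1]; simp [hil.symm, hl0]
  have hi1 : i ∈ fr x1 := by rw [hf1]; exact mem_insert_self _ _
  have hj1 : j ∉ fr x1 := by
    rw [hf1]; simp [hij.symm]
  obtain ⟨x2, hx2, hE2⟩ := sys_exch S hx1 hl1 hi1 h3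
  have ha2 := sys_ex_abs S hx1 hx2 hE2
  obtain ⟨-, -, hf2, he2, hg2⟩ := hE2
  have hj2 : j ∉ fr x2 := by
    rw [hf2]; simp [hjl, hj1]
  have hl2 : l ∈ fr x2 := by rw [hf2]; exact mem_insert_self _ _
  have hi2 : i ∉ fr x2 := by
    rw [hf2]; simp [hil]
  obtain ⟨x3, hx3, hE3⟩ := sys_exch S hx2 hj2 hl2 (by rw [S.sym]; exact h2)
  have ha3 := sys_ex_abs S hx2 hx3 hE3
  obtain ⟨-, -, hf3, he3, hg3⟩ := hE3
  have hf : fr x0 = fr x3 := by
    rw [hf3, hf2, hf1]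
    ext m
    simp only [mem_insert, mem_erase]
    constructor
    · intro hm
      have hmi : m ≠ i := fun h => hi0 (h ▸ hm)
      have hml : m ≠ l := fun h => hl0 (h ▸ hm)
      by_cases hmj : m = j
      · exact Or.inl hmj
      · exact Or.inr ⟨hml, Or.inr ⟨hmi, Or.inr ⟨hmj, hm⟩⟩⟩
    · rintro (rfl | ⟨hml, h | ⟨hmi, h | ⟨-, h⟩⟩⟩)
      · exact hj0
      · exact absurd h hml
      · exact absurd h hmi
      · exact h
  have e1 : x1 l = x0 l := he1 l (by simp [hil.symm, hl0])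
  have e2 : x2 j = x1 j := he2 j (by simp [hjl, hj1])
  have e3 : x3 i = x2 i := he3 i (by simp [hij, hi2])
  have hoth : ∀ m, m ∉ fr x0 → m ≠ i → m ≠ l → x0 m = x3 m := by
    intro m hm hmi hml
    have hmj : m ≠ j := fun h => hm (h ▸ hj0)
    have hm1 : m ∉ fr x1 := by
      rw [hf1]; simp [hmi, hm]
    have hm2 : m ∉ fr x2 := by
      rw [hf2]; simp [hml, hm1]
    rw [he3 m (by simp [hmj, hm2]), he2 m (by simp [hml, hm1]), he1 m (by simp [hmi, hm])]
  have nfl : x0 i = x3 i → x0 l = x3 l := by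
    intro h
    refine S.noflip x0 hx0 x3 hx3 hf l hl0 ?_
    intro m hm hml
    by_cases hmi : m = i
    · rw [hmi]; exact h
    · exact hoth m hm hmi hml
  have nfi : x0 l = x3 l → x0 i = x3 i := by
    intro h
    refine S.noflip x0 hx0 x3 hx3 hf i hi0 ?_
    intro m hm hmi
    by_cases hml : m = l
    · rw [hml]; exact h
    · exact hoth m hm hmi hml
  have hθ := S.pos
  obtain ⟨v0i, v1j, -⟩ := ha1
  obtain ⟨v1l, v2i, -⟩ := ha2
  obtain ⟨-, v3l, -⟩ := ha3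
  rw [e1] at v1l hg2
  rw [e2] at hg3
  rw [e3] at nfl nfi
  rw [S.sym j i] at hg1
  rw [S.sym l j] at hg3
  have q1 : 0 < x1 j * x0 i * g i j := lt_of_lt_of_le hθ hg1
  have q2 : 0 < x2 i * x0 l * g i l := lt_of_lt_of_le hθ hg2
  have q3 : 0 < x3 l * x1 j * g j l := lt_of_lt_of_le hθ hg3
  have q := mul_pos (mul_pos q1 q2) q3
  have key : (x1 j * x1 j) * (x0 i * x2 i * (x0 l * x3 l)) = 1 := by
    rcases v1j with h | h <;> rcases v0i with h' | h' <;> rcases v2i with h'' | h'' <;>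
      rcases v1l with k | k <;> rcases v3l with k' | k' <;>
      rw [h', h'', k, k'] at nfl nfi <;> rw [h, h', h'', k, k'] <;>
      first
        | (norm_num; done)
        | (exfalso; norm_num at nfl; done)
        | (exfalso; norm_num at nfi)
  have : x1 j * x0 i * g i j * (x2 i * x0 l * g i l) * (x3 l * x1 j * g j l)
      = ((x1 j * x1 j) * (x0 i * x2 i * (x0 l * x3 l))) * (g i j * g j l * g i l) := by ring
  rw [this, key, one_mul] at q
  exact q

end Pool.Agent.Lib.MP_1be6c9_co.Gold
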