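import Pool.Agent.Lib.MP_1be6c9_co.Gold.CombB

/-!
MODULE CombC (about 120 lines). Exchanges preserve the class sums.

`tau g θ b t` is `1` for `t = b`, the sign of `g t b` for `θ ≤ |g t b|`, and `0` otherwise.
For a step `x → x'` with `j` entering and `l` leaving (`Ex g θ x x' j l`):
`(fr x')ᶜ = insert l (((fr x)ᶜ).erase j)`, the values on `((fr x)ᶜ).erase j` agree, so the claim is
`tau b j * x j = tau b l * x' l`. By `sys_ex_abs` `x j, x' l = ± 1`, `θ ≤ |g l j|`, and
`0 < θ ≤ x' l * x j * g l j`, so `x' l * x j` has the sign of `g l j`. `j ≠ l`.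
* `b = j`: `tau b j = 1`, `tau b l = ` sign of `g l j` `= x' l * x j`, so both sides are `x j`
  (`(x' l)^2 = 1`).
* `b = l`: `tau b l = 1`, `tau b j =` sign of `g j l = g l j` (`sym`), both sides are `x' l`.
* `b ≠ j, l`: by `sys_trans`, `θ ≤ |g j b|` iff `θ ≤ |g l b|`. If not, both sides are `0`. If yes,
  `sys_sign` gives `0 < g l j * g j b * g l b` (with `sym`), so
  sign `(g j b)` * sign `(g l b)` = sign `(g l j)` = `x' l * x j`, whence
  `tau b j * x j = tau b l * x' l` (multiply by `tau b l * x' l`, whose square is `1`).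
-/

namespace Pool.Agent.Lib.MP_1be6c9_co.Gold

open Finset

variable {κ : Type*} [Fintype κ] [DecidableEq κ] {V : Set (κ → ℝ)} {g : κ → κ → ℝ} {θ : ℝ}
  {d : ℕ}

open scoped Classical in
/-- Signs relative to the label `b`. -/
noncomputable def tau {κ : Type*} (g : κ → κ → ℝ) (θ : ℝ) (b t : κ) : ℝ :=
  if t = b then 1 else if θ ≤ |g t b| then (if 0 < g t b then 1 else -1) else 0

private theorem CombC_tau_self (b : κ) : tau g θ b b = 1 := by
  simp [tau]

private theorem CombC_tau_far {b t : κ} (h : t ≠ b) (h' : ¬ θ ≤ |g t b|) : tau g θ b t = 0 := by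
  simp only [tau, if_neg h, if_neg h']

/-- The sign of a close label: `tau` is `± 1` and has the sign of `g t b`. -/
private theorem CombC_tau_near (hθ : 0 < θ) {b t : κ} (h : t ≠ b) (h' : θ ≤ |g t b|) :
    (tau g θ b t = 1 ∧ 0 < g t b) ∨ (tau g θ b t = -1 ∧ g t b < 0) := by
  have h0 : g t b ≠ 0 := by
    intro h0
    rw [h0, abs_zero] at h'
    linarith
  rcases lt_or_gt_of_ne h0 with h1 | h1
  · right
    refine ⟨?_, h1⟩
    simp only [tau, if_neg h, if_pos h', if_neg (not_lt.2 h1.le)]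
  · left
    refine ⟨?_, h1⟩
    simp only [tau, if_neg h, if_pos h', if_pos h1]

private theorem CombC_key (S : Sys V g θ d) (hV : V.Nonempty) (b : κ) {x x' : κ → ℝ} {j l : κ}
    (hjl : j ≠ l) (hxj : x j = 1 ∨ x j = -1) (hxl : x' l = 1 ∨ x' l = -1)
    (hθ : θ ≤ |g l j|) (hg : θ ≤ x' l * x j * g l j) :
    tau g θ b j * x j = tau g θ b l * x' l := by
  have h0 := S.pos
  -- the sign of `g l j`
  have hs : (x' l * x j = 1 ∧ 0 < g l j) ∨ (x' l * x j = -1 ∧ g l j < 0) := by
    rcases hxj with h1 | h1 <;> rcases hxl with h2 | h2 <;> rw [h1, h2] at hg ⊢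
    · left; constructor <;> linarith
    · right; constructor <;> linarith
    · right; constructor <;> linarith
    · left; constructor <;> linarith
  have hxl2 : x' l * x' l = 1 := by
    rcases hxl with h2 | h2 <;> rw [h2] <;> norm_num
  have hxj2 : x j * x j = 1 := by
    rcases hxj with h2 | h2 <;> rw [h2] <;> norm_num
  by_cases hbj : j = b
  · subst hbj
    rw [CombC_tau_self]
    rcases CombC_tau_near h0 (Ne.symm hjl) hθ with ⟨h1, h2⟩ | ⟨h1, h2⟩
    · rcases hs with ⟨h3, h4⟩ | ⟨h3, h4⟩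
      · rw [h1]
        linear_combination (x j) * (-hxl2) + (x' l) * h3
      · linarith
    · rcases hs with ⟨h3, h4⟩ | ⟨h3, h4⟩
      · linarith
      · rw [h1]
        linear_combination (x j) * (-hxl2) + (x' l) * h3
  by_cases hbl : l = b
  · subst hbl
    rw [CombC_tau_self]
    have hθ' : θ ≤ |g j l| := by rw [S.sym]; exact hθ
    have hsym := S.sym j l
    rcases CombC_tau_near h0 hjl hθ' with ⟨h1, h2⟩ | ⟨h1, h2⟩
    · rcases hs with ⟨h3, h4⟩ | ⟨h3, h4⟩
      · rw [h1]
        linear_combination (-(x j)) * hxl2 + (x' l) * h3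
      · linarith
    · rcases hs with ⟨h3, h4⟩ | ⟨h3, h4⟩
      · linarith
      · rw [h1]
        linear_combination (x j) * hxl2 - (x' l) * h3
  by_cases hc : θ ≤ |g j b|
  · have hc' : θ ≤ |g l b| := by
      rcases sys_trans S hV (Or.inr hθ : Rel g θ l j) (Or.inr hc : Rel g θ j b) with h | h
      · exact absurd h hbl
      · exact h
    have hsg := sys_sign S hV (Ne.symm hjl) hbj hbl hθ hc hc'
    have t1 := CombC_tau_near h0 hbj hc
    have t2 := CombC_tau_near h0 hbl hc'
    have e : tau g θ b j * tau g θ b l = x' l * x j := by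
      rcases t1 with ⟨h1, h2⟩ | ⟨h1, h2⟩ <;> rcases t2 with ⟨h3, h4⟩ | ⟨h3, h4⟩ <;>
        rcases hs with ⟨h5, h6⟩ | ⟨h5, h6⟩ <;> rw [h1, h3, h5]
      · norm_num
      · exfalso
        have := mul_neg_of_neg_of_pos (mul_neg_of_neg_of_pos h6 h2) h4
        linarith
      · exfalso
        have := mul_neg_of_pos_of_neg (mul_pos h6 h2) h4
        linarith
      · norm_num
      · exfalso
        have := mul_neg_of_neg_of_pos (mul_neg_of_pos_of_neg h6 h2) h4
        linarith
      · norm_num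
      · norm_num
      · exfalso
        have := mul_neg_of_pos_of_neg (mul_pos_of_neg_of_neg h6 h2) h4
        linarith
    have htl : tau g θ b l * tau g θ b l = 1 := by
      rcases t2 with ⟨h3, h4⟩ | ⟨h3, h4⟩ <;> rw [h3] <;> norm_num
    calc tau g θ b j * x j = tau g θ b j * (tau g θ b l * tau g θ b l) * x j := by
          rw [htl, mul_one]
      _ = (tau g θ b j * tau g θ b l) * tau g θ b l * x j := by ring
      _ = x' l * (x j * x j) * tau g θ b l := by rw [e]; ring
      _ = tau g θ b l * x' l := by rw [hxj2]; ring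
  · have hc' : ¬ θ ≤ |g l b| := by
      intro h
      have hjl' : θ ≤ |g j l| := by rw [S.sym]; exact hθ
      rcases sys_trans S hV (Or.inr hjl' : Rel g θ j l) (Or.inr h : Rel g θ l b) with h | h
      · exact hbj h
      · exact hc h
    rw [CombC_tau_far hbj hc, CombC_tau_far hbl hc', zero_mul, zero_mul]

theorem inv_step (S : Sys V g θ d) (hV : V.Nonempty) (b : κ) (x x' : κ → ℝ)
    (h : Step V g θ x x') :
    ∑ t ∈ (fr x)ᶜ, tau g θ b t * x t = ∑ t ∈ (fr x')ᶜ, tau g θ b t * x' t := by
  obtain ⟨hx, hx', j, l, hE⟩ := h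
  obtain ⟨hxj, hxl, hθ⟩ := sys_ex_abs S hx hx' hE
  obtain ⟨hj, hl, hf, he, hg⟩ := hE
  have hjl : j ≠ l := by
    rintro rfl
    exact hj hl
  have h1 : (fr x)ᶜ = insert j (((fr x)ᶜ).erase j) := by
    rw [Finset.insert_erase]
    rw [Finset.mem_compl]
    exact hj
  have h2 : (fr x')ᶜ = insert l (((fr x)ᶜ).erase j) := by
    rw [hf]
    ext m
    simp only [mem_compl, mem_insert, mem_erase, not_or, not_and]
    constructor
    · rintro ⟨h3, h4⟩
      by_cases hm : m = l
      · exact Or.inl hm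
      · exact Or.inr ⟨h3, h4 hm⟩
    · rintro (rfl | ⟨h3, h4⟩)
      · exact ⟨fun h => hjl h.symm, fun h => absurd rfl h⟩
      · exact ⟨h3, fun _ => h4⟩
  have hl' : l ∉ ((fr x)ᶜ).erase j := by
    simp only [mem_erase, mem_compl, not_and, not_not]
    exact fun _ => hl
  rw [h2, Finset.sum_insert hl', h1, Finset.sum_insert (by simp)]
  rw [CombC_key S hV b hjl hxj hxl hθ hg]
  congr 1
  rw [Finset.erase_insert_eq_erase, Finset.erase_idem]
  refine Finset.sum_congr rfl ?_
  intro t ht
  rw [he t]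
  rw [mem_insert, not_or]
  rw [mem_erase, mem_compl] at ht
  exact ht

end Pool.Agent.Lib.MP_1be6c9_co.Gold
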