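import Pool.Agent.Lib.MP_1be6c9_co.Gold.CombC

/-!
MODULE CombD (about 110 lines). Parity.

`fr (fun i => - w i) = fr w`. By `inv_step` along the chain (`Relation.ReflTransGen` induction),
for every label `b`: `∑_{t ∉ fr w} tau b t * w t = ∑_{t ∉ fr w} tau b t * (- w t)`, so this sum is
`0`. Let `b ∈ fr w` and `K b = {t ∉ fr w | θ ≤ |g t b|}` (a `Finset.filter` of `(fr w)ᶜ`); for
`t ∉ fr w` one has `t ≠ b`, so `tau b t * w t` is `± 1` on `K b` and `0` off it. A sum of
`card (K b)` numbers `± 1` that equals `0` has an even number of terms (for instance: each term is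
`1 - 2 * δ t` with `δ t ∈ {0, 1}`, so `card (K b) = 2 * ∑ δ t`; or by induction: such a sum is an
integer congruent to the number of terms mod 2). So `card (K b)` is even. The sets `K b`, `b ∈ fr w`, partition `(fr w)ᶜ`:
every `t ∉ fr w` has a neighbour in `fr w` (`piv`, `sys_ex_abs`, `sym`) and only one
(`sys_unique`, `sym`): `card (fr w)ᶜ = ∑_{b ∈ fr w} card (K b)` (`Finset.card_biUnion`, or
`Finset.card_eq_sum_card_fiberwise` for the map `t ↦` its neighbour). So `card κ - d` is even,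
with `card (fr w) = d ≤ card κ` (`Finset.card_compl`).
-/

namespace Pool.Agent.Lib.MP_1be6c9_co.Gold

open Finset

variable {κ : Type*} [Fintype κ] [DecidableEq κ] {V : Set (κ → ℝ)} {g : κ → κ → ℝ} {θ : ℝ}
  {d : ℕ}

omit [DecidableEq κ] in
private theorem CombD_fr_neg (w : κ → ℝ) : fr (fun i => - w i) = fr w := by
  ext i
  rw [mem_fr, mem_fr, abs_neg]

private theorem CombD_chain (S : Sys V g θ d) (hV : V.Nonempty) (b : κ) {x x' : κ → ℝ}
    (h : Relation.ReflTransGen (Step V g θ) x x') :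
    ∑ t ∈ (fr x)ᶜ, tau g θ b t * x t = ∑ t ∈ (fr x')ᶜ, tau g θ b t * x' t := by
  induction h with
  | refl => rfl
  | tail _ h2 ih => exact ih.trans (inv_step S hV b _ _ h2)

/-- A vanishing sum of numbers `± 1` has an even number of terms. -/
private theorem CombD_even {ι : Type*} (s : Finset ι) (f : ι → ℝ)
    (hf : ∀ i ∈ s, f i = 1 ∨ f i = -1) (h : ∑ i ∈ s, f i = 0) : 2 ∣ s.card := by
  classical
  have h1 : ∑ i ∈ s, f i = (s.card : ℝ) - 2 * ((s.filter fun i => f i = -1).card : ℝ) := by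
    rw [Finset.card_filter, Nat.cast_sum, Finset.mul_sum, Finset.card_eq_sum_ones, Nat.cast_sum,
      ← Finset.sum_sub_distrib]
    refine Finset.sum_congr rfl ?_
    intro i hi
    rcases hf i hi with h2 | h2
    · rw [h2, if_neg (by norm_num)]
      norm_num
    · rw [h2, if_pos rfl]
      norm_num
  rw [h] at h1
  refine ⟨(s.filter fun i => f i = -1).card, ?_⟩
  have h2 : (s.card : ℝ) = 2 * ((s.filter fun i => f i = -1).card : ℝ) := by linarith
  exact_mod_cast h2

omit [Fintype κ] in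
private theorem CombD_tau {b t : κ} (h : t ≠ b) :
    (¬ θ ≤ |g t b| → tau g θ b t = 0) ∧
      (θ ≤ |g t b| → tau g θ b t = 1 ∨ tau g θ b t = -1) := by
  constructor
  · intro h'
    simp only [tau, if_neg h, if_neg h']
  · intro h'
    simp only [tau, if_neg h, if_pos h']
    by_cases h0 : 0 < g t b
    · left
      rw [if_pos h0]
    · right
      rw [if_neg h0]

theorem sys_parity (S : Sys V g θ d) (w : κ → ℝ) (hw : w ∈ V)
    (hr : Relation.ReflTransGen (Step V g θ) w (fun i => - w i)) :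
    Fintype.card κ % 2 = d % 2 := by
  classical
  have hV : V.Nonempty := ⟨w, hw⟩
  -- the class sums vanish
  have h0 : ∀ b, ∑ t ∈ (fr w)ᶜ, tau g θ b t * w t = 0 := by
    intro b
    have h1 := CombD_chain S hV b hr
    rw [CombD_fr_neg] at h1
    have h2 : ∑ t ∈ (fr w)ᶜ, tau g θ b t * -w t = - ∑ t ∈ (fr w)ᶜ, tau g θ b t * w t := by
      rw [← Finset.sum_neg_distrib]
      exact Finset.sum_congr rfl fun t _ => mul_neg _ _
    rw [h2] at h1
    linarith
  have hval : ∀ t ∈ (fr w)ᶜ, w t = 1 ∨ w t = -1 := by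
    intro t ht
    obtain ⟨x', hx', l, hE⟩ := S.piv w hw t (Finset.mem_compl.1 ht)
    exact (sys_ex_abs S hw hx' hE).1
  set K : κ → Finset κ := fun b => (fr w)ᶜ.filter fun t => θ ≤ |g t b| with hK
  have hKe : ∀ b ∈ fr w, 2 ∣ (K b).card := by
    intro b hb
    have hne : ∀ t ∈ (fr w)ᶜ, t ≠ b := by
      rintro t ht rfl
      exact Finset.mem_compl.1 ht hb
    refine CombD_even (K b) (fun t => tau g θ b t * w t) ?_ ?_
    · intro t ht
      obtain ⟨h1, h2⟩ := Finset.mem_filter.1 ht
      rcases (CombD_tau (g := g) (θ := θ) (hne t h1)).2 h2 with h3 | h3 <;>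
        rcases hval t h1 with h4 | h4 <;> rw [h3, h4] <;> norm_num
    · rw [← h0 b]
      refine Finset.sum_subset (Finset.filter_subset _ _) ?_
      intro t ht h1
      have h2 : ¬ θ ≤ |g t b| := fun h => h1 (Finset.mem_filter.2 ⟨ht, h⟩)
      rw [(CombD_tau (g := g) (θ := θ) (hne t ht)).1 h2, zero_mul]
  have hpart : (fr w)ᶜ = (fr w).biUnion K := by
    ext t
    rw [Finset.mem_biUnion]
    constructor
    · intro ht
      obtain ⟨x', hx', l, hE⟩ := S.piv w hw t (Finset.mem_compl.1 ht)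
      have h1 := (sys_ex_abs S hw hx' hE).2.2
      refine ⟨l, hE.2.1, Finset.mem_filter.2 ⟨ht, ?_⟩⟩
      rw [S.sym]
      exact h1
    · rintro ⟨b, -, h⟩
      exact (Finset.mem_filter.1 h).1
  have hcard : ((fr w)ᶜ).card = ∑ b ∈ fr w, (K b).card := by
    conv_lhs => rw [hpart]
    refine Finset.card_biUnion ?_
    intro b hb b' hb' hne
    change Disjoint (K b) (K b')
    rw [Finset.disjoint_left]
    intro t h1 h2
    obtain ⟨h3, h4⟩ := Finset.mem_filter.1 h1
    obtain ⟨-, h5⟩ := Finset.mem_filter.1 h2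
    rw [S.sym] at h4 h5
    exact hne (sys_unique S hw (Finset.mem_compl.1 h3) hb hb' h4 h5)
  have hdvd : 2 ∣ ((fr w)ᶜ).card := by
    rw [hcard]
    exact Finset.dvd_sum hKe
  have h1 := Finset.card_add_card_compl (fr w)
  rw [S.card w hw] at h1
  omega

end Pool.Agent.Lib.MP_1be6c9_co.Gold
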