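import Pool.Agent.Lib.MP_1be6c9_co.Gold.Piv

/-!
MODULE Cone (about 80 lines). An improving edge at a basic point.

`F = fr u`, `z^(j)` = the direction of `edge_dir` for `j ∉ F` (choose it by `choose`, with a default
for `j ∈ F`). Let `D = y - u - ∑_{j ∉ F} (1 - u j * y j) • z^(j)` (coordinatewise). For `i ∉ F` only
`z^(i)` has a nonzero `i`-th coordinate, `- u i`, so
`D i = y i - u i + (1 - u i * y i) * u i = 0` by `u i ^ 2 = 1`. `∑ D i • v i = 0`, `D` vanishes off
`F`, and `v` is independent on `F` (`bas_indep`, `linearIndepOn_finset_iff`), so `D = 0`. Therefore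
`0 < ∑ c i * (y i - u i) = ∑_{j ∉ F} (1 - u j * y j) * ∑ c i * z^(j) i`, where `1 - u j * y j ≥ 0`;
if all inner sums were `≤ 0` the right side would be `≤ 0`. So some `j ∉ F` has
`0 < ∑ c i * z^(j) i`.
-/

namespace Pool.Agent.Lib.MP_1be6c9_co.Gold

open Finset

variable {E : Type*} [NormedAddCommGroup E] [InnerProductSpace ℝ E]

theorem cone_dir {κ : Type*} [Fintype κ] [DecidableEq κ] [FiniteDimensional ℝ E] (v : κ → E)
    (hv : ∀ i, ‖v i‖ = 1) (k : ℝ) (hk1 : k ≤ 1)
    (H : Long v (Module.finrank ℝ E - k)) (u y : κ → ℝ) (hu : Bas v u) (hy : ∀ i, |y i| ≤ 1)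
    (hy0 : ∑ i, y i • v i = 0) (c : κ → ℝ) (hlt : ∑ i, c i * u i < ∑ i, c i * y i) :
    ∃ j, j ∉ fr u ∧ ∃ z : κ → ℝ, ∑ i, z i • v i = 0 ∧ z j = - u j ∧
      (∀ i, i ∉ insert j (fr u) → z i = 0) ∧ 0 < ∑ i, c i * z i := by
  have hli := bas_indep v hv _ hk1 H u hu
  rw [linearIndepOn_finset_iff] at hli
  have hex : ∀ j, ∃ z : κ → ℝ, j ∉ fr u → (∑ i, z i • v i = 0 ∧ z j = - u j ∧
      ∀ i, i ∉ insert j (fr u) → z i = 0) := by
    intro j
    by_cases hj : j ∈ fr u
    · exact ⟨0, fun h => absurd hj h⟩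
    · obtain ⟨z, hz⟩ := edge_dir v hv k hk1 H u hu j hj
      exact ⟨z, fun _ => hz⟩
  choose Z hZ using hex
  by_contra hcon
  have hle : ∀ j, j ∉ fr u → ∑ i, c i * Z j i ≤ 0 := by
    intro j hj
    by_contra h
    exact hcon ⟨j, hj, Z j, (hZ j hj).1, (hZ j hj).2.1, (hZ j hj).2.2, not_le.1 h⟩
  set D : κ → ℝ := fun i => y i - u i - ∑ j ∈ (fr u)ᶜ, (1 - u j * y j) * Z j i with hD
  have hoff : ∀ i, i ∉ fr u → D i = 0 := by
    intro i hi
    have hu2 : u i ^ 2 = 1 := by
      rcases (not_mem_fr u hu.1 i).1 hi with h | h <;> rw [h] <;> norm_num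
    have hsum : ∑ j ∈ (fr u)ᶜ, (1 - u j * y j) * Z j i = (1 - u i * y i) * Z i i := by
      refine Finset.sum_eq_single i ?_ ?_
      · intro j hj hji
        rw [(hZ j (Finset.mem_compl.1 hj)).2.2 i ?_, mul_zero]
        rw [Finset.mem_insert]
        rintro (h | h)
        · exact hji h.symm
        · exact hi h
      · intro h
        exact absurd (Finset.mem_compl.2 hi) h
    rw [hD]
    simp only
    rw [hsum, (hZ i hi).2.1]
    linear_combination (- y i) * hu2
  have hDv : ∑ i, D i • v i = 0 := by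
    have h1 : ∑ i, (∑ j ∈ (fr u)ᶜ, (1 - u j * y j) * Z j i) • v i = 0 := by
      have h2 : ∀ i, (∑ j ∈ (fr u)ᶜ, (1 - u j * y j) * Z j i) • v i
          = ∑ j ∈ (fr u)ᶜ, (1 - u j * y j) • (Z j i • v i) := by
        intro i
        rw [Finset.sum_smul]
        refine Finset.sum_congr rfl fun j _ => ?_
        rw [smul_smul]
      rw [Finset.sum_congr rfl fun i _ => h2 i, Finset.sum_comm]
      refine Finset.sum_eq_zero fun j hj => ?_
      rw [← Finset.smul_sum, (hZ j (Finset.mem_compl.1 hj)).1, smul_zero]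
    simp only [hD, sub_smul, Finset.sum_sub_distrib, hy0, hu.2.1, h1, sub_zero]
  have hon : ∀ i ∈ fr u, D i = 0 := by
    refine hli D ?_
    rw [← hDv]
    refine Finset.sum_subset (Finset.subset_univ _) fun i _ hi => ?_
    rw [hoff i hi, zero_smul]
  have hz : ∀ i, y i - u i = ∑ j ∈ (fr u)ᶜ, (1 - u j * y j) * Z j i := by
    intro i
    have h : D i = 0 := by
      by_cases hi : i ∈ fr u
      · exact hon i hi
      · exact hoff i hi
    exact sub_eq_zero.1 h
  have key : ∑ i, c i * y i - ∑ i, c i * u i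
      = ∑ j ∈ (fr u)ᶜ, (1 - u j * y j) * ∑ i, c i * Z j i := by
    rw [← Finset.sum_sub_distrib]
    have h2 : ∀ i, c i * y i - c i * u i
        = ∑ j ∈ (fr u)ᶜ, (1 - u j * y j) * (c i * Z j i) := by
      intro i
      rw [← mul_sub, hz i, Finset.mul_sum]
      refine Finset.sum_congr rfl fun j _ => ?_
      ring
    rw [Finset.sum_congr rfl fun i _ => h2 i, Finset.sum_comm]
    refine Finset.sum_congr rfl fun j _ => ?_
    rw [Finset.mul_sum]
  have hneg : ∑ j ∈ (fr u)ᶜ, (1 - u j * y j) * ∑ i, c i * Z j i ≤ 0 := by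
    refine Finset.sum_nonpos fun j hj => ?_
    have hj' := Finset.mem_compl.1 hj
    refine mul_nonpos_of_nonneg_of_nonpos ?_ (hle j hj')
    have hyj := abs_le.1 (hy j)
    rcases (not_mem_fr u hu.1 j).1 hj' with h | h <;> rw [h] <;> linarith [hyj.1, hyj.2]
  linarith

end Pool.Agent.Lib.MP_1be6c9_co.Gold
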