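import Pool.Agent.Lib.MP_1be6c9_co.Gap

/-!
Definitions for the improved uniform gap: Rademacher means, exchanges, and the abstract system
of signed bases.
-/

namespace Pool.Agent.Lib.MP_1be6c9_co.Gold

open Finset

/-- The sign of a bit. -/
def sg (b : Bool) : ℝ := if b then 1 else -1

theorem sg_or (b : Bool) : sg b = 1 ∨ sg b = -1 := by cases b <;> simp [sg]

theorem sg_sq (b : Bool) : sg b ^ 2 = 1 := by cases b <;> simp [sg]

theorem sg_mul_self (b : Bool) : sg b * sg b = 1 := by cases b <;> simp [sg]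

theorem sg_not (b : Bool) : sg (!b) = - sg b := by cases b <;> simp [sg]

/-- The Rademacher mean of `|∑ a_i ε_i|`. -/
noncomputable def Kh {κ : Type*} [Fintype κ] [DecidableEq κ] (a : κ → ℝ) : ℝ :=
  (∑ ε : κ → Bool, |∑ i, a i * sg (ε i)|) / 2 ^ Fintype.card κ

/-- `x'` arises from `x` by the exchange in which `j` enters the free set and `l` leaves it. -/
def Ex {κ : Type*} [Fintype κ] [DecidableEq κ] (g : κ → κ → ℝ) (θ : ℝ) (x x' : κ → ℝ)
    (j l : κ) : Prop :=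
  j ∉ fr x ∧ l ∈ fr x ∧ fr x' = insert j ((fr x).erase l) ∧
    (∀ i, i ∉ insert j (fr x) → x' i = x i) ∧ θ ≤ x' l * x j * g l j

/-- An abstract system of signed bases with exchanges. -/
structure Sys {κ : Type*} [Fintype κ] [DecidableEq κ] (V : Set (κ → ℝ)) (g : κ → κ → ℝ)
    (θ : ℝ) (d : ℕ) : Prop where
  pos : 0 < θ
  cube : ∀ x ∈ V, ∀ i, |x i| ≤ 1
  card : ∀ x ∈ V, (fr x).card = d
  sym : ∀ i j, g i j = g j i
  co : ∀ x ∈ V, ∀ a ∈ fr x, ∀ b ∈ fr x, a ≠ b → |g a b| < θ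
  piv : ∀ x ∈ V, ∀ j, j ∉ fr x → ∃ x' ∈ V, ∃ l, Ex g θ x x' j l
  noflip : ∀ x ∈ V, ∀ x' ∈ V, fr x = fr x' → ∀ i, i ∉ fr x →
    (∀ l, l ∉ fr x → l ≠ i → x l = x' l) → x i = x' i

/-- The closeness relation on labels. -/
def Rel {κ : Type*} (g : κ → κ → ℝ) (θ : ℝ) (i j : κ) : Prop := i = j ∨ θ ≤ |g i j|

/-- One exchange step inside `V`. -/
def Step {κ : Type*} [Fintype κ] [DecidableEq κ] (V : Set (κ → ℝ)) (g : κ → κ → ℝ) (θ : ℝ)
    (x x' : κ → ℝ) : Prop :=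
  x ∈ V ∧ x' ∈ V ∧ ∃ j l, Ex g θ x x' j l

end Pool.Agent.Lib.MP_1be6c9_co.Gold
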