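import Pool.Agent.Lib.MP_1be6c9_co.Gold.Cone

/-!
MODULE Reach (about 120 lines). The simplex method: `w` and `- w` are joined by exchanges.

`bas_finite`: the map `x ↦ (fun i => if i ∈ fr x then (0 : ℤ) or a third value else sign of x i)` to
a finite type (for instance `κ → SignType`, `i ↦ if i ∈ fr x then 0 else SignType.sign (x i)`) is
injective on `{x | Bas v x}`: equal images give equal `fr` (the image is `0` exactly on `fr x`) and
equal values `± 1` off `fr`; the difference is supported on `fr x`, has `∑ (x i - x' i) • v i = 0`,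
and vanishes by `bas_indep` (`linearIndepOn_finset_iff`). Use `Set.Finite.of_injOn` or
`Set.Finite.of_finite_image`.
`reach`: `c i = if i ∈ fr w then 0 else - w i`. The set `R` of `u` with
`Relation.ReflTransGen (Step ..) w u` and `Bas v u` is finite and nonempty (contains `w`); take `u`
in it with `∑ c i * u i` maximal (`Set.Finite.exists_maximal_wrt` or `Set.exists_max_image`).
`y = - w` satisfies `|y i| ≤ 1`, `∑ y v = 0`, `∑ c i * y i = card of the complement`. If
`∑ c u < ∑ c y`, `cone_dir` gives `j, z` with `0 < ∑ c z` and `piv_step` gives a step from `u` to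
`u + t z` with `t > 0`, which is in `R` and has larger value: contradiction. So
`∑ c u ≥ ∑ c y`; each term satisfies `c i * u i = - w i * u i ≤ 1 = c i * y i` off `fr w`, so all
are equal, `u i = - w i` off `fr w`; then `u + w` is supported on `fr w` and `∑ (u+w) v = 0`, so
`u = - w` by independence, and `R` contains `- w`.
-/

namespace Pool.Agent.Lib.MP_1be6c9_co.Gold

open Finset

variable {E : Type*} [NormedAddCommGroup E] [InnerProductSpace ℝ E]

private theorem Reach_unique {κ : Type*} [Fintype κ] (v : κ → E) (x y : κ → ℝ)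
    (hli : LinearIndepOn ℝ v (fr x : Set κ)) (hx0 : ∑ i, x i • v i = 0)
    (hy0 : ∑ i, y i • v i = 0) (h : ∀ i, i ∉ fr x → y i = x i) : y = x := by
  have h1 : ∑ i ∈ fr x, (y i - x i) • v i = 0 := by
    have h2 : ∑ i ∈ fr x, (y i - x i) • v i = ∑ i, (y i - x i) • v i := by
      apply Finset.sum_subset (Finset.subset_univ _)
      intro i _ hi
      rw [h i hi, sub_self, zero_smul]
    rw [h2]
    simp only [sub_smul]
    rw [Finset.sum_sub_distrib, hx0, hy0, sub_zero]
  have h3 := (linearIndepOn_finset_iff.1 hli) (fun i => y i - x i) h1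
  funext i
  by_cases hi : i ∈ fr x
  · exact sub_eq_zero.1 (h3 i hi)
  · exact h i hi

private noncomputable def Reach_map {κ : Type*} [Fintype κ] [DecidableEq κ] (x : κ → ℝ) :
    κ → SignType :=
  fun i => if i ∈ fr x then 0 else SignType.sign (x i)

private theorem Reach_map_zero {κ : Type*} [Fintype κ] [DecidableEq κ] (x : κ → ℝ)
    (hx : ∀ i, |x i| ≤ 1) (i : κ) : Reach_map x i = 0 ↔ i ∈ fr x := by
  unfold Reach_map
  by_cases hi : i ∈ fr x
  · rw [if_pos hi]
    exact ⟨fun _ => hi, fun _ => rfl⟩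
  · rw [if_neg hi]
    refine ⟨fun h => ?_, fun h => absurd h hi⟩
    rw [sign_eq_zero_iff] at h
    rcases (not_mem_fr x hx i).mp hi with h1 | h1 <;> rw [h1] at h <;> norm_num at h

theorem bas_finite {κ : Type*} [Fintype κ] [DecidableEq κ] [FiniteDimensional ℝ E] (v : κ → E)
    (hv : ∀ i, ‖v i‖ = 1) (k : ℝ) (hk1 : k ≤ 1)
    (H : Long v (Module.finrank ℝ E - k)) : {x : κ → ℝ | Bas v x}.Finite := by
  refine Set.Finite.of_finite_image (f := Reach_map) (Set.toFinite _) ?_
  intro x hx x' hx' hxx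
  have hfr : ∀ i, i ∈ fr x' ↔ i ∈ fr x := by
    intro i
    rw [← Reach_map_zero x hx.1 i, ← Reach_map_zero x' hx'.1 i, hxx]
  have hval : ∀ i, i ∉ fr x → x' i = x i := by
    intro i hi
    have hi' : i ∉ fr x' := fun h => hi ((hfr i).1 h)
    have h1 := congrFun hxx i
    unfold Reach_map at h1
    rw [if_neg hi, if_neg hi'] at h1
    rcases (not_mem_fr x hx.1 i).mp hi with h2 | h2 <;>
      rcases (not_mem_fr x' hx'.1 i).mp hi' with h3 | h3 <;> rw [h2, h3] at h1 ⊢
    · rw [sign_one, sign_neg (by norm_num)] at h1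
      exact absurd h1 (by decide)
    · rw [sign_one, sign_neg (by norm_num)] at h1
      exact absurd h1 (by decide)
  exact (Reach_unique v x x' (bas_indep v hv k hk1 H x hx) hx.2.1 hx'.2.1 hval).symm

theorem reach {κ : Type*} [Fintype κ] [DecidableEq κ] [FiniteDimensional ℝ E] (v : κ → E)
    (hv : ∀ i, ‖v i‖ = 1) (k : ℝ) (hk1 : k ≤ 1)
    (H : Long v (Module.finrank ℝ E - k)) (ρ : ℝ) (hρ : ρ ≤ 1)
    (hs : ∀ x, Bas v x → ‖cc v x‖ ^ 2 < ρ) (w : κ → ℝ) (hw : Bas v w) :
    Relation.ReflTransGen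
      (Step {x : κ → ℝ | Bas v x} (fun i j => inner ℝ (v i) (v j)) (1 - 2 * ρ)) w
      (fun i => - w i) := by
  obtain ⟨c, hc⟩ : ∃ c : κ → ℝ, c = fun i => if i ∈ fr w then 0 else - w i := ⟨_, rfl⟩
  obtain ⟨R, hR⟩ : ∃ R : Set (κ → ℝ), R = {u | Relation.ReflTransGen
      (Step {x : κ → ℝ | Bas v x} (fun i j => inner ℝ (v i) (v j)) (1 - 2 * ρ)) w u ∧
      Bas v u} := ⟨_, rfl⟩
  have hfin : R.Finite := (bas_finite v hv k hk1 H).subset (by
    rw [hR]
    exact fun u hu => hu.2)
  have hne : R.Nonempty := ⟨w, by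
    rw [hR]
    exact ⟨Relation.ReflTransGen.refl, hw⟩⟩
  obtain ⟨u, huR, hmax⟩ := Set.exists_max_image R (fun u => ∑ i, c i * u i) hfin hne
  have hu : Relation.ReflTransGen
      (Step {x : κ → ℝ | Bas v x} (fun i j => inner ℝ (v i) (v j)) (1 - 2 * ρ)) w u ∧
      Bas v u := by
    rw [hR] at huR
    exact huR
  have hy : ∀ i, |(fun i => - w i) i| ≤ 1 := by
    intro i
    show |- w i| ≤ 1
    rw [abs_neg]
    exact hw.1 i
  have hy0 : ∑ i, (fun i => - w i) i • v i = 0 := by
    show ∑ i, (- w i) • v i = 0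
    simp only [neg_smul]
    rw [Finset.sum_neg_distrib, hw.2.1, neg_zero]
  by_cases hlt : ∑ i, c i * u i < ∑ i, c i * (fun i => - w i) i
  · exfalso
    obtain ⟨j, hj, z, hz0, hzj, hzs, hpos⟩ :=
      cone_dir v hv k hk1 H u (fun i => - w i) hu.2 hy hy0 c hlt
    obtain ⟨t, ht, l, hb, hex⟩ := piv_step v hv k hk1 H ρ hρ hs u hu.2 j hj z hz0 hzj hzs
    have hmem : (fun i => u i + t * z i) ∈ R := by
      rw [hR]
      exact ⟨hu.1.tail ⟨hu.2, hb, j, l, hex⟩, hb⟩
    have h1 := hmax _ hmem
    have h2 : ∑ i, c i * (u i + t * z i) = ∑ i, c i * u i + t * ∑ i, c i * z i := by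
      rw [Finset.mul_sum, ← Finset.sum_add_distrib]
      exact Finset.sum_congr rfl fun i _ => by ring
    have h3 : ∑ i, c i * (u i + t * z i) ≤ ∑ i, c i * u i := h1
    have h4 := mul_pos ht hpos
    linarith
  · have hle : ∀ i, c i * u i ≤ c i * (- w i) := by
      intro i
      rw [hc]
      show (if i ∈ fr w then (0 : ℝ) else - w i) * u i ≤
        (if i ∈ fr w then (0 : ℝ) else - w i) * (- w i)
      by_cases hi : i ∈ fr w
      · rw [if_pos hi, zero_mul, zero_mul]
      · rw [if_neg hi]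
        have h1 := abs_le.1 (hu.2.1 i)
        rcases (not_mem_fr w hw.1 i).mp hi with h2 | h2 <;> rw [h2] <;> linarith [h1.1, h1.2]
    have heq : ∑ i, c i * u i = ∑ i, c i * (- w i) :=
      le_antisymm (Finset.sum_le_sum fun i _ => hle i) (not_lt.1 hlt)
    have hpt := (Finset.sum_eq_sum_iff_of_le (fun i _ => hle i)).1 heq
    have hoff : ∀ i, i ∉ fr w → (fun i => - u i) i = w i := by
      intro i hi
      have h1 := hpt i (Finset.mem_univ i)
      rw [hc] at h1
      have h2 : (if i ∈ fr w then (0 : ℝ) else - w i) * u i =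
        (if i ∈ fr w then (0 : ℝ) else - w i) * (- w i) := h1
      rw [if_neg hi] at h2
      show - u i = w i
      rcases (not_mem_fr w hw.1 i).mp hi with h3 | h3 <;> rw [h3] at h2 ⊢ <;> linarith
    have hnu : ∑ i, (fun i => - u i) i • v i = 0 := by
      show ∑ i, (- u i) • v i = 0
      simp only [neg_smul]
      rw [Finset.sum_neg_distrib, hu.2.2.1, neg_zero]
    have hfinal := Reach_unique v w (fun i => - u i) (bas_indep v hv k hk1 H w hw) hw.2.1 hnu hoff
    have hu2 : u = fun i => - w i := by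
      funext i
      have h1 : - u i = w i := congrFun hfinal i
      linarith
    rw [← hu2]
    exact hu.1

end Pool.Agent.Lib.MP_1be6c9_co.Gold
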