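import Pool.Agent.Lib.MP_1be6c9_co.Gold.RB
import Pool.Agent.Lib.MP_1be6c9_co.Gold.CoFree
import Pool.Agent.Lib.MP_1be6c9_co.Gold.Reach
import Pool.Agent.Lib.MP_1be6c9_co.Gold.CombD

/-!
Assembly: the uniform gap with the golden ratio.
-/

namespace Pool.Agent.Lib.MP_1be6c9_co.Gold

open Finset

variable {E : Type*} [NormedAddCommGroup E] [InnerProductSpace ℝ E]

theorem main {κ : Type*} [Fintype κ] [DecidableEq κ] [FiniteDimensional ℝ E] (v : κ → E)
    (hv : ∀ i, ‖v i‖ = 1) (k : ℝ) (hk0 : 0 < k) (hk : k ^ 2 + k ≤ 1)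
    (hpar : Fintype.card κ % 2 ≠ Module.finrank ℝ E % 2) :
    ∃ η : κ → ℝ, (∀ i, η i = 1 ∨ η i = -1) ∧
      ‖∑ i, η i • v i‖ ^ 2 ≤ Module.finrank ℝ E - k := by
  by_contra hcon
  push Not at hcon
  have H : Long v (Module.finrank ℝ E - k) := fun η hη => hcon η hη
  have hk1 : k < 1 := by nlinarith
  set ρ : ℝ := k ^ 2 / (2 - k) with hρdef
  have h2k : 0 < 2 - k := by linarith
  have hρ1 : ρ ≤ 1 := by
    rw [hρdef, div_le_one h2k]; nlinarith
  have hs : ∀ x, Bas v x → ‖cc v x‖ ^ 2 < ρ := by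
    intro x hx
    rw [hρdef, lt_div_iff₀ h2k, mul_comm]
    exact rb v hv k hk0 hk1.le H x hx
  have hθ : k / (2 - k) ≤ 1 - 2 * ρ := by
    rw [hρdef, div_le_iff₀ h2k]
    have : (1 - 2 * (k ^ 2 / (2 - k))) * (2 - k) = (2 - k) - 2 * k ^ 2 := by
      field_simp
    rw [this]; nlinarith
  have hpos : 0 < 1 - 2 * ρ := lt_of_lt_of_le (div_pos hk0 h2k) hθ
  obtain ⟨w, hw⟩ := bas_exists v hv k hk1.le H
  have S : Sys {x : κ → ℝ | Bas v x} (fun i j => inner ℝ (v i) (v j)) (1 - 2 * ρ)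
      (Module.finrank ℝ E) := by
    refine ⟨hpos, fun x hx => hx.1, fun x hx => hx.2.2, fun i j => real_inner_comm _ _, ?_, ?_, ?_⟩
    · intro x hx a ha b hb hab
      have := cofree v hv k hk0 hk1.le H x hx a b ha hb hab
      have h3 : |inner ℝ (v a) (v b)| < k / (2 - k) := by
        rw [lt_div_iff₀ h2k, mul_comm]; exact this
      exact lt_of_lt_of_le h3 hθ
    · intro x hx j hj
      obtain ⟨z, hz0, hzj, hzs⟩ := edge_dir v hv k hk1.le H x hx j hj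
      obtain ⟨t, -, l, hb, hex⟩ := piv_step v hv k hk1.le H ρ hρ1 hs x hx j hj z hz0 hzj hzs
      exact ⟨_, hb, l, hex⟩
    · intro x hx x' hx' hf i hi h
      exact noflip v hv ρ hρ1 hs x x' hx hx' hf i hi h
  exact hpar (sys_parity S w hw (reach v hv k hk1.le H ρ hρ1 hs w hw))

end Pool.Agent.Lib.MP_1be6c9_co.Gold
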