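import Pool.Agent.Lib.MP_1be6c9_co.Gold.Defs

/-!
MODULE Mom (about 110 lines). Second moments, simple bounds for `Kh`, the averaging lemma.

`mom`: expand `‖∑ sg(ε i) w i‖² = ∑_i ∑_j sg(ε i) sg(ε j) ⟪w i, w j⟫` (`norm_sq_eq` as inner
product, `sum_inner`, `inner_sum`), exchange sums (`Finset.sum_comm`); for `i = j` the sum over `ε`
is `2 ^ card`, for `i ≠ j` the sum of `sg (ε i) * sg (ε j)` over `ε` is `0` by the involution
`ε ↦ Function.update ε i (!(ε i))` (`Finset.sum_involution`, or: the sum equals its negative after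
reindexing by this involution).
`kh_nonneg`: sum of absolute values over a positive number.
`kh_ge_abs`: pair `ε` with `ε' = update ε i (!(ε i))`: `|S(ε)| + |S(ε')| ≥ |S(ε) - S(ε')| =
|2 a_i sg (ε i)| = 2 |a_i|`; sum over all `ε`, the map `ε ↦ ε'` being a bijection of the cube:
`2 ∑ |S(ε)| ≥ 2 |a_i| 2^card`.
`law`: for every `ε : κ → Bool` apply `H` to `sg ∘ ε` and to its negative: since
`‖∑ (-ε i) w i‖ = ‖∑ ε i w i‖`, both signs of the linear term occur, so
`R < A + ‖∑ sg(ε i) w i‖² - 2 |∑ c i sg(ε i)|`. Sum over the cube (`Finset.sum_lt_sum_of_nonempty`),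
use `mom`, divide by `2 ^ card`.
-/

namespace Pool.Agent.Lib.MP_1be6c9_co.Gold

open Finset

variable {E : Type*} [NormedAddCommGroup E] [InnerProductSpace ℝ E]

/-- Flip one bit. -/
private def Mom_flip {κ : Type*} [DecidableEq κ] (i : κ) (ε : κ → Bool) : κ → Bool :=
  Function.update ε i (!(ε i))

private theorem Mom_flip_invol {κ : Type*} [DecidableEq κ] (i : κ) :
    Function.Involutive (Mom_flip (κ := κ) i) := by
  intro ε
  funext k
  unfold Mom_flip
  by_cases h : k = i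
  · subst h; simp
  · simp [Function.update_of_ne h]

private theorem Mom_flip_self {κ : Type*} [DecidableEq κ] (i : κ) (ε : κ → Bool) :
    Mom_flip i ε i = !(ε i) := by
  simp [Mom_flip]

private theorem Mom_flip_ne {κ : Type*} [DecidableEq κ] {i j : κ} (h : j ≠ i) (ε : κ → Bool) :
    Mom_flip i ε j = ε j := by
  simp [Mom_flip, Function.update_of_ne h]

private theorem Mom_sum_flip {κ : Type*} [Fintype κ] [DecidableEq κ] (i : κ)
    (f : (κ → Bool) → ℝ) : ∑ ε : κ → Bool, f (Mom_flip i ε) = ∑ ε : κ → Bool, f ε :=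
  Equiv.sum_comp (Function.Involutive.toPerm _ (Mom_flip_invol i)) f

private theorem Mom_cross {κ : Type*} [Fintype κ] [DecidableEq κ] {i j : κ} (h : j ≠ i) :
    ∑ ε : κ → Bool, sg (ε i) * sg (ε j) = 0 := by
  have h1 := Mom_sum_flip i (fun ε : κ → Bool => sg (ε i) * sg (ε j))
  simp only [Mom_flip_self, Mom_flip_ne h, sg_not, neg_mul, Finset.sum_neg_distrib] at h1
  linarith

private theorem Mom_card {κ : Type*} [Fintype κ] [DecidableEq κ] :
    (Finset.univ : Finset (κ → Bool)).card = 2 ^ Fintype.card κ := by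
  rw [Finset.card_univ, Fintype.card_fun, Fintype.card_bool]

private theorem Mom_diag {κ : Type*} [Fintype κ] [DecidableEq κ] (i : κ) :
    ∑ ε : κ → Bool, sg (ε i) * sg (ε i) = 2 ^ Fintype.card κ := by
  simp only [sg_mul_self, Finset.sum_const, Mom_card, nsmul_eq_mul, mul_one]
  push_cast
  rfl

theorem mom {κ : Type*} [Fintype κ] [DecidableEq κ] (w : κ → E) :
    ∑ ε : κ → Bool, ‖∑ i, sg (ε i) • w i‖ ^ 2 = 2 ^ Fintype.card κ * ∑ i, ‖w i‖ ^ 2 := by
  have h1 : ∀ ε : κ → Bool, ‖∑ i, sg (ε i) • w i‖ ^ 2 =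
      ∑ i, ∑ j, (sg (ε i) * sg (ε j)) * inner ℝ (w i) (w j) := by
    intro ε
    rw [← real_inner_self_eq_norm_sq, sum_inner]
    refine Finset.sum_congr rfl fun i _ => ?_
    rw [inner_sum]
    refine Finset.sum_congr rfl fun j _ => ?_
    rw [real_inner_smul_left, real_inner_smul_right]
    ring
  simp only [h1]
  rw [Finset.sum_comm, Finset.mul_sum]
  refine Finset.sum_congr rfl fun i _ => ?_
  rw [Finset.sum_comm, Finset.sum_eq_single i]
  · rw [← Finset.sum_mul, Mom_diag, real_inner_self_eq_norm_sq]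
  · intro j _ hj
    rw [← Finset.sum_mul, Mom_cross hj, zero_mul]
  · intro h
    exact absurd (Finset.mem_univ i) h

theorem kh_nonneg {κ : Type*} [Fintype κ] [DecidableEq κ] (a : κ → ℝ) : 0 ≤ Kh a := by
  unfold Kh
  exact div_nonneg (Finset.sum_nonneg fun ε _ => abs_nonneg _) (by positivity)

private theorem Mom_split {κ : Type*} [Fintype κ] [DecidableEq κ] (a : κ → ℝ) (i : κ)
    (ε : κ → Bool) :
    ∑ k, a k * sg (ε k) - ∑ k, a k * sg (Mom_flip i ε k) = 2 * (a i * sg (ε i)) := by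
  rw [← Finset.sum_sub_distrib, Finset.sum_eq_single i]
  · rw [Mom_flip_self, sg_not]
    ring
  · intro k _ hk
    rw [Mom_flip_ne hk]
    ring
  · intro h
    exact absurd (Finset.mem_univ i) h

private theorem Mom_abs_sg (b : Bool) : |sg b| = 1 := by cases b <;> simp [sg]

theorem kh_ge_abs {κ : Type*} [Fintype κ] [DecidableEq κ] (a : κ → ℝ) (i : κ) :
    |a i| ≤ Kh a := by
  unfold Kh
  have hpos : (0 : ℝ) < 2 ^ Fintype.card κ := by positivity
  rw [le_div_iff₀ hpos]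
  have h1 := Mom_sum_flip i (fun ε : κ → Bool => |∑ k, a k * sg (ε k)|)
  have h2 : ∀ ε : κ → Bool, 2 * |a i| ≤
      |∑ k, a k * sg (ε k)| + |∑ k, a k * sg (Mom_flip i ε k)| := by
    intro ε
    have h3 := abs_sub (∑ k, a k * sg (ε k)) (∑ k, a k * sg (Mom_flip i ε k))
    rw [Mom_split, abs_mul, abs_mul, Mom_abs_sg, mul_one, abs_of_pos (by norm_num : (0:ℝ) < 2)]
      at h3
    exact h3
  have h4 : ∑ _ε : κ → Bool, 2 * |a i| ≤ ∑ ε : κ → Bool,
      (|∑ k, a k * sg (ε k)| + |∑ k, a k * sg (Mom_flip i ε k)|) :=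
    Finset.sum_le_sum fun ε _ => h2 ε
  rw [Finset.sum_const, Mom_card, Finset.sum_add_distrib, h1, nsmul_eq_mul] at h4
  push_cast at h4
  linarith

theorem law {κ : Type*} [Fintype κ] [DecidableEq κ] (w : κ → E) (A R : ℝ) (c : κ → ℝ)
    (H : ∀ ε : κ → ℝ, (∀ i, ε i = 1 ∨ ε i = -1) →
      R < A + ‖∑ i, ε i • w i‖ ^ 2 - 2 * ∑ i, c i * ε i) :
    R < A + ∑ i, ‖w i‖ ^ 2 - 2 * Kh c := by
  have hpos : (0 : ℝ) < 2 ^ Fintype.card κ := by positivity
  have h1 : ∀ ε : κ → Bool, R < A + ‖∑ i, sg (ε i) • w i‖ ^ 2 - 2 * |∑ i, c i * sg (ε i)| := by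
    intro ε
    have hp := H (fun i => sg (ε i)) (fun i => sg_or _)
    have hn := H (fun i => - sg (ε i)) (fun i => by
      rcases sg_or (ε i) with h | h
      · right; rw [h]
      · left; rw [h]; norm_num)
    have e1 : ∑ i, (-sg (ε i)) • w i = - ∑ i, sg (ε i) • w i := by
      simp [neg_smul, Finset.sum_neg_distrib]
    have e2 : ∑ i, c i * (-sg (ε i)) = - ∑ i, c i * sg (ε i) := by
      simp [mul_neg, Finset.sum_neg_distrib]
    rw [e1, e2, norm_neg] at hn
    rcases abs_cases (∑ i, c i * sg (ε i)) with ⟨h, _⟩ | ⟨h, _⟩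
    · rw [h]; exact hp
    · rw [h]; exact hn
  have h2 : ∑ _ε : κ → Bool, R < ∑ ε : κ → Bool,
      (A + ‖∑ i, sg (ε i) • w i‖ ^ 2 - 2 * |∑ i, c i * sg (ε i)|) :=
    Finset.sum_lt_sum_of_nonempty Finset.univ_nonempty fun ε _ => h1 ε
  rw [Finset.sum_sub_distrib, Finset.sum_add_distrib, mom, Finset.sum_const, Finset.sum_const,
    Mom_card, ← Finset.mul_sum, nsmul_eq_mul, nsmul_eq_mul] at h2
  push_cast at h2
  have h3 : ∑ ε : κ → Bool, |∑ i, c i * sg (ε i)| = 2 ^ Fintype.card κ * Kh c := by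
    unfold Kh
    field_simp
  rw [h3] at h2
  have h4 : (2 : ℝ) ^ Fintype.card κ * R <
      2 ^ Fintype.card κ * (A + ∑ i, ‖w i‖ ^ 2 - 2 * Kh c) := by
    linarith
  exact lt_of_mul_lt_mul_left h4 hpos.le

end Pool.Agent.Lib.MP_1be6c9_co.Gold
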