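import Pool.Agent.Lib.MP_1be6c9_co.Gold.Defs

/-!
MODULE Piv (about 170 lines). Edge directions, the exchange step, no flips. ADAPTATION of the
proved theorem `swap` in `Pool/Agent/Lib/MP_1be6c9_co/Swap.lean` (copy its proof; do NOT import
Swap.lean; copy `cc_eq` and `norm_sub_sq_le` as private lemmas).

`edge_dir`: first part of the proof of `swap`: `S = insert j (fr x)` has `d + 1` elements, so `v` is
dependent on `S` but independent on `fr x` (`bas_indep`); normalise the relation so that its value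
at `j` is `- x j` and extend by `0`.
`piv_step`: with the given `z` the lemma `move` (Polytope.lean; its hypotheses: for `i ∉ fr x`,
`i ≠ j`, `z i = 0`, and `z j = - x j` has the sign pointing into the cube) gives `t > 0` and `l`
with `x' = x + t z` in the cube and `x' l = ± 1`, `z l ≠ 0`, so `l ∈ S`; as in `swap`,
`fr x' = S.erase l` by `long_card`, `Bas v x'`; `cc v x' - cc v x = x' l • v l - x j • v j`, whose
squared norm is `≤ 2 ‖cc v x'‖² + 2 ‖cc v x‖² < 4 ρ ≤ 4`. `l = j` is impossible (then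
`x' j = - x j` and the squared norm is `4`). For `l ≠ j`: `l ∈ fr x`,
`fr x' = insert j ((fr x).erase l)`, `x' i = x i` off `S` since `z i = 0`, and
`4 ρ > ‖x' l • v l - x j • v j‖² = 2 - 2 x' l x j ⟪v l, v j⟫`, i.e. `1 - 2 ρ ≤ x' l x j ⟪v l, v j⟫`.
`noflip`: off `fr x = fr x'` all values are `± 1`; if `x i ≠ x' i` then `x' i = - x i` and
`cc v x' - cc v x = (x' i - x i) • v i` (`cc_eq`: `cc v x = ∑ over the complement of fr x`), of
squared norm `4`, but it is `≤ 2 ‖cc v x'‖² + 2 ‖cc v x‖² < 4 ρ ≤ 4`.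
-/

namespace Pool.Agent.Lib.MP_1be6c9_co.Gold

open Finset

variable {E : Type*} [NormedAddCommGroup E] [InnerProductSpace ℝ E]

private theorem Piv_cc_eq {κ : Type*} [Fintype κ] [DecidableEq κ] (v : κ → E) (x : κ → ℝ)
    (h0 : ∑ i, x i • v i = 0) : cc v x = ∑ i ∈ (fr x)ᶜ, x i • v i := by
  rw [sum_fr v x] at h0
  rw [cc, eq_neg_of_add_eq_zero_left h0, neg_neg]

private theorem Piv_norm_sub_sq_le (a b : E) : ‖a - b‖ ^ 2 ≤ 2 * ‖a‖ ^ 2 + 2 * ‖b‖ ^ 2 := by
  have h := parallelogram_law_with_norm ℝ a b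
  nlinarith [sq_nonneg ‖a + b‖, norm_nonneg (a+b)]

theorem edge_dir {κ : Type*} [Fintype κ] [DecidableEq κ] [FiniteDimensional ℝ E] (v : κ → E)
    (hv : ∀ i, ‖v i‖ = 1) (k : ℝ) (hk1 : k ≤ 1)
    (H : Long v (Module.finrank ℝ E - k)) (x : κ → ℝ) (hx : Bas v x) (j : κ) (hj : j ∉ fr x) :
    ∃ z : κ → ℝ, ∑ i, z i • v i = 0 ∧ z j = - x j ∧ ∀ i, i ∉ insert j (fr x) → z i = 0 := by
  have hli := bas_indep v hv _ hk1 H x hx
  set S : Finset κ := insert j (fr x) with hS
  have hScard : S.card = Module.finrank ℝ E + 1 := by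
    rw [hS, Finset.card_insert_of_notMem hj, hx.2.2]
  have hdep : ¬ LinearIndepOn ℝ v (S : Set κ) := by
    intro hcon
    have := card_le_of_indep v S hcon
    omega
  rw [linearIndepOn_finset_iff] at hdep hli
  push Not at hdep
  obtain ⟨f, hf, i1, hi1, hfi1⟩ := hdep
  have hfj : f j ≠ 0 := by
    intro hfj
    rw [hS, Finset.sum_insert hj, hfj, zero_smul, zero_add] at hf
    have h1 := hli f hf
    rw [hS, Finset.mem_insert] at hi1
    rcases hi1 with h | h
    · exact hfi1 (h ▸ hfj)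
    · exact hfi1 (h1 i1 h)
  have hjS : j ∈ S := Finset.mem_insert_self _ _
  refine ⟨fun i => if i ∈ S then (- x j / f j) * f i else 0, ?_, ?_, ?_⟩
  · have : ∑ i, (if i ∈ S then (- x j / f j) * f i else 0) • v i
        = (- x j / f j) • ∑ i ∈ S, f i • v i := by
      rw [Finset.smul_sum]
      simp only [ite_smul, zero_smul]
      rw [Finset.sum_ite_mem, Finset.univ_inter]
      refine Finset.sum_congr rfl fun i _ => ?_
      rw [smul_smul]
    rw [this, hf, smul_zero]
  · simp only [if_pos hjS]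
    field_simp
  · intro i hi
    simp only [if_neg hi]

theorem piv_step {κ : Type*} [Fintype κ] [DecidableEq κ] [FiniteDimensional ℝ E] (v : κ → E)
    (hv : ∀ i, ‖v i‖ = 1) (k : ℝ) (hk1 : k ≤ 1)
    (H : Long v (Module.finrank ℝ E - k)) (ρ : ℝ) (hρ : ρ ≤ 1)
    (hs : ∀ x, Bas v x → ‖cc v x‖ ^ 2 < ρ) (x : κ → ℝ) (hx : Bas v x) (j : κ) (hj : j ∉ fr x)
    (z : κ → ℝ) (hz0 : ∑ i, z i • v i = 0) (hzj : z j = - x j)
    (hzs : ∀ i, i ∉ insert j (fr x) → z i = 0) :
    ∃ t : ℝ, 0 < t ∧ ∃ l, Bas v (fun i => x i + t * z i) ∧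
      Ex (fun i j => inner ℝ (v i) (v j)) (1 - 2 * ρ) x (fun i => x i + t * z i) j l := by
  have hxj := (not_mem_fr x hx.1 j).mp hj
  have hxj2 : x j ^ 2 = 1 := by rcases hxj with h | h <;> rw [h] <;> norm_num
  set S : Finset κ := insert j (fr x) with hS
  have hScard : S.card = Module.finrank ℝ E + 1 := by
    rw [hS, Finset.card_insert_of_notMem hj, hx.2.2]
  have hjS : j ∈ S := Finset.mem_insert_self _ _
  have hz1 : ∀ i, x i = 1 → z i ≤ 0 := by
    intro i hi
    have hnf : i ∉ fr x := (not_mem_fr x hx.1 i).mpr (Or.inl hi)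
    by_cases hij : i = j
    · rw [hij, hzj, ← hij, hi]; norm_num
    · rw [hzs i (by rw [hS, Finset.mem_insert]; tauto)]
  have hz2 : ∀ i, x i = -1 → 0 ≤ z i := by
    intro i hi
    have hnf : i ∉ fr x := (not_mem_fr x hx.1 i).mpr (Or.inr hi)
    by_cases hij : i = j
    · rw [hij, hzj, ← hij, hi]; norm_num
    · rw [hzs i (by rw [hS, Finset.mem_insert]; tauto)]
  have hzne : ∃ i, z i ≠ 0 := ⟨j, by
    rw [hzj]; rcases hxj with h | h <;> rw [h] <;> norm_num⟩
  obtain ⟨t, ht, hcube, l, hl, hl2⟩ := move x z hx.1 hz1 hz2 hzne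
  set x' : κ → ℝ := fun i => x i + t * z i with hx'
  have hx'0 : ∑ i, x' i • v i = 0 := by
    simp only [hx', add_smul, mul_smul, Finset.sum_add_distrib, ← Finset.smul_sum, hx.2.1, hz0]
    simp
  have hlS : l ∈ S := by
    by_contra hcon
    exact hl (hzs l hcon)
  have hx'l : x' l = 1 ∨ x' l = -1 := by
    rcases hl2 with ⟨_, h⟩ | ⟨_, h⟩
    · exact Or.inl h
    · exact Or.inr h
  have hsub : fr x' ⊆ S.erase l := by
    intro i hi
    rw [Finset.mem_erase]
    constructor
    · rintro rfl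
      exact (not_mem_fr x' hcube i).mpr hx'l hi
    · by_contra hcon
      have h1 : x' i = x i := by simp [hx', hzs i hcon]
      rw [mem_fr, h1, ← mem_fr] at hi
      exact hcon (by rw [hS]; exact Finset.mem_insert_of_mem hi)
  have hcardE : (S.erase l).card = Module.finrank ℝ E := by
    rw [Finset.card_erase_of_mem hlS, hScard]; simp
  have hge := long_card v hv _ hk1 H x' hcube hx'0
  have hfr' : fr x' = S.erase l := Finset.eq_of_subset_of_card_le hsub (by omega)
  have hbas' : Bas v x' := ⟨hcube, hx'0, by rw [hfr', hcardE]⟩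
  have hfrx : fr x = S.erase j := by rw [hS, Finset.erase_insert hj]
  have hc : cc v x = x j • v j + ∑ i ∈ Sᶜ, x i • v i := by
    rw [Piv_cc_eq v x hx.2.1, hfrx, Finset.compl_erase, Finset.sum_insert (by simpa using hjS)]
  have hc' : cc v x' = x' l • v l + ∑ i ∈ Sᶜ, x i • v i := by
    rw [Piv_cc_eq v x' hx'0, hfr', Finset.compl_erase, Finset.sum_insert (by simpa using hlS)]
    congr 1
    refine Finset.sum_congr rfl fun i hi => ?_
    rw [Finset.mem_compl] at hi
    simp [hx', hzs i hi]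
  have hdiff : cc v x' - cc v x = x' l • v l - x j • v j := by
    rw [hc, hc']; abel
  have hsm : ‖x' l • v l - x j • v j‖ ^ 2 < 4 * ρ := by
    rw [← hdiff]
    have h1 := Piv_norm_sub_sq_le (cc v x') (cc v x)
    have h2 := hs x hx
    have h3 := hs x' hbas'
    linarith
  have hlj : l ≠ j := by
    intro hlj
    have hx'j : x' l = - x j := by
      rw [hlj] at hl2 ⊢
      rw [hzj] at hl2
      rcases hl2 with ⟨h1, h2⟩ | ⟨h1, h2⟩
      · have : x j = -1 := by
          rcases hxj with h | h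
          · rw [h] at h1; norm_num at h1
          · exact h
        rw [this]
        have h3 : x' j = 1 := by simp only [hx', hzj]; exact h2
        rw [h3]; norm_num
      · have : x j = 1 := by
          rcases hxj with h | h
          · exact h
          · rw [h] at h1; norm_num at h1
        rw [this]
        have h3 : x' j = -1 := by simp only [hx', hzj]; exact h2
        rw [h3]
    rw [hlj] at hsm hx'j
    rw [hx'j, ← sub_smul, norm_smul, hv j, mul_one, Real.norm_eq_abs, sq_abs] at hsm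
    nlinarith
  have hlF : l ∈ fr x := by
    rw [hfrx, Finset.mem_erase]; exact ⟨hlj, hlS⟩
  have hx'l2 : x' l ^ 2 = 1 := by rcases hx'l with h | h <;> rw [h] <;> norm_num
  refine ⟨t, ht, l, hbas', hj, hlF, ?_, ?_, ?_⟩
  · rw [hfr', hS, Finset.erase_insert_of_ne (Ne.symm hlj)]
  · intro i hi
    have : z i = 0 := hzs i hi
    simp [this]
  · have hexp : ‖x' l • v l - x j • v j‖ ^ 2
        = x' l ^ 2 + x j ^ 2 - 2 * (x' l * x j * inner ℝ (v l) (v j)) := by
      rw [norm_sub_sq_real, norm_smul, norm_smul, hv, hv, mul_one, mul_one, Real.norm_eq_abs,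
        Real.norm_eq_abs, sq_abs, sq_abs, real_inner_smul_left, real_inner_smul_right]
      ring
    rw [hexp, hx'l2, hxj2] at hsm
    show 1 - 2 * ρ ≤ x' l * x j * inner ℝ (v l) (v j)
    linarith

theorem noflip {κ : Type*} [Fintype κ] [DecidableEq κ] [FiniteDimensional ℝ E] (v : κ → E)
    (hv : ∀ i, ‖v i‖ = 1) (ρ : ℝ) (hρ : ρ ≤ 1)
    (hs : ∀ x, Bas v x → ‖cc v x‖ ^ 2 < ρ) (x x' : κ → ℝ) (hx : Bas v x) (hx' : Bas v x')
    (hf : fr x = fr x') (i : κ) (hi : i ∉ fr x)
    (h : ∀ l, l ∉ fr x → l ≠ i → x l = x' l) : x i = x' i := by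
  have hxi := (not_mem_fr x hx.1 i).mp hi
  have hx'i := (not_mem_fr x' hx'.1 i).mp (hf ▸ hi)
  by_contra hne
  have hneg : x' i = - x i := by
    rcases hxi with h1 | h1 <;> rcases hx'i with h2 | h2
    · exact absurd (h1.trans h2.symm) hne
    · rw [h1, h2]
    · rw [h1, h2]; norm_num
    · exact absurd (h1.trans h2.symm) hne
  have hdiff : cc v x' - cc v x = (x' i - x i) • v i := by
    rw [Piv_cc_eq v x hx.2.1, Piv_cc_eq v x' hx'.2.1, ← hf, ← Finset.sum_sub_distrib]
    rw [Finset.sum_eq_single i]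
    · rw [sub_smul]
    · intro l hl hli
      rw [Finset.mem_compl] at hl
      rw [h l hl hli, sub_self]
    · intro hcon
      exact absurd (Finset.mem_compl.mpr hi) hcon
  have h1 := Piv_norm_sub_sq_le (cc v x') (cc v x)
  have h2 := hs x hx
  have h3 := hs x' hx'
  have hx2 : x i ^ 2 = 1 := by rcases hxi with h | h <;> rw [h] <;> norm_num
  rw [hdiff, norm_smul, hv i, mul_one, Real.norm_eq_abs, sq_abs, hneg] at h1
  nlinarith

end Pool.Agent.Lib.MP_1be6c9_co.Gold
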