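import Pool.Agent.Lib.MP_1be6c9_co.Gold.Star

/-!
MODULE RB (about 130 lines). The rounded part at a basic point is short.

Notation: `F = fr x`, `d = finrank`, `Y = - cc v x = ∑_F x i • v i`, `s = ‖cc v x‖²`.
`xt i = if i ∈ F then x i else 0`, `y i = if i ∈ F then ⟪Y, v i⟫ else 0`,
`z i = x i * (1 - |x i|)`; off `F` one has `|x i| = 1` (`not_mem_fr`), so `z i = 0` and
`z i = xt i * (1 - |xt i|)` for all `i`. `X = ∑ xt i ^ 2 = ∑_F x i ^ 2`.
(1) `law` with `w i = if i ∈ F then v i else 0`, `A = s`, `R = d - k`, `c = y`. Hypothesis: by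
`long_sub`, `d - k < ‖cc v x + ∑_F ε i • v i‖² = s + ‖∑_F ε v‖² + 2 ⟪cc v x, ∑_F ε v⟫` and
`⟪cc, ∑_F ε v⟫ = - ∑ y i ε i`. Result, with `∑ ‖w i‖² = card F = d`: `2 Kh y < s + k`.
(2) `law` with `w i = (1 - |x i|) • v i`, `c = z`, `A = ∑_i (1 - x i ^ 2) - ∑_i (1 - |x i|)^2`,
`R = d - k`. Hypothesis: for a sign vector `ε` let `u i = x i + (1 - |x i|) * ε i`; `|u i| ≤ 1`;
`rounding v u` (Basic.lean) and `H` give `d - k < ‖∑ u v‖² + ∑ (1 - u i ^ 2) * ‖v i‖^2`; now
`∑ u v = ∑ ε i • w i` because `∑ x v = 0`, and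
`1 - u i ^ 2 = (1 - x i ^ 2) - (1 - |x i|)^2 - 2 z i ε i` (`ε i ^ 2 = 1`). Result:
`∑ ‖w i‖² = ∑ (1 - |x i|)^2` cancels, `∑_i (1 - x i ^ 2) = d - X` (terms off `F` vanish), so
`G = X + 2 Kh z < k ≤ 1`.
(3) `star xt y` : `s = ⟪Y, Y⟫ = ∑ xt i * y i ≤ G * Kh y`. If `Kh y = 0` then `s ≤ 0` and the
claim is `0 < k ^ 2`; in general `s ≤ G Kh y ≤ k Kh y < k (s + k)/2` (`Kh y ≥ 0`, `k > 0`), i.e.
`(2 - k) s < k ^ 2`.
-/

namespace Pool.Agent.Lib.MP_1be6c9_co.Gold

open Finset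

variable {E : Type*} [NormedAddCommGroup E] [InnerProductSpace ℝ E]

private theorem rb_sum_ite {κ : Type*} [Fintype κ] [DecidableEq κ] (v : κ → E) (F : Finset κ)
    (a : κ → ℝ) :
    ∑ i, a i • (if i ∈ F then v i else 0) = ∑ i ∈ F, a i • v i := by
  simp only [smul_ite, smul_zero]
  rw [Finset.sum_ite_mem, Finset.univ_inter]

private theorem rb_one {κ : Type*} [Fintype κ] [DecidableEq κ] [FiniteDimensional ℝ E] (v : κ → E)
    (hv : ∀ i, ‖v i‖ = 1) (k : ℝ)
    (H : Long v (Module.finrank ℝ E - k)) (x : κ → ℝ) (hx : Bas v x) :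
    2 * Kh (fun i => if i ∈ fr x then inner ℝ (-cc v x) (v i) else 0) < ‖cc v x‖ ^ 2 + k := by
  have h := law (fun i => if i ∈ fr x then v i else 0) (‖cc v x‖ ^ 2) (Module.finrank ℝ E - k)
    (fun i => if i ∈ fr x then inner ℝ (-cc v x) (v i) else 0) ?_
  · have h3 : ∑ i, ‖(if i ∈ fr x then v i else 0)‖ ^ 2 = (Module.finrank ℝ E : ℝ) := by
      have h4 : ∀ i, ‖(if i ∈ fr x then v i else 0)‖ ^ 2 = if i ∈ fr x then (1 : ℝ) else 0 := by
        intro i
        split_ifs with hi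
        · rw [hv i, one_pow]
        · rw [norm_zero]; norm_num
      rw [Finset.sum_congr rfl fun i _ => h4 i, Finset.sum_ite_mem, Finset.univ_inter,
        Finset.sum_const, nsmul_eq_mul, mul_one, hx.2.2]
    rw [h3] at h
    linarith
  · intro ε hε
    have h1 := long_sub v _ H x hx.1 hx.2.1 ε hε
    rw [norm_add_sq_real, inner_sum] at h1
    rw [rb_sum_ite]
    have h2 : ∑ i, (if i ∈ fr x then inner ℝ (-cc v x) (v i) else 0) * ε i =
        -∑ i ∈ fr x, inner ℝ (cc v x) (ε i • v i) := by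
      simp only [ite_mul, zero_mul]
      rw [Finset.sum_ite_mem, Finset.univ_inter, ← Finset.sum_neg_distrib]
      refine Finset.sum_congr rfl fun i _ => ?_
      rw [inner_smul_right, inner_neg_left]
      ring
    rw [h2]
    linarith

private theorem rb_two {κ : Type*} [Fintype κ] [DecidableEq κ] [FiniteDimensional ℝ E] (v : κ → E)
    (hv : ∀ i, ‖v i‖ = 1) (k : ℝ)
    (H : Long v (Module.finrank ℝ E - k)) (x : κ → ℝ) (hx : Bas v x) :
    ∑ i ∈ fr x, x i ^ 2 + 2 * Kh (fun i => x i * (1 - |x i|)) < k := by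
  have h := law (fun i => (1 - |x i|) • v i) (∑ i, (1 - x i ^ 2) - ∑ i, (1 - |x i|) ^ 2)
    (Module.finrank ℝ E - k) (fun i => x i * (1 - |x i|)) ?_
  · have h3 : ∑ i, ‖(1 - |x i|) • v i‖ ^ 2 = ∑ i, (1 - |x i|) ^ 2 := by
      refine Finset.sum_congr rfl fun i _ => ?_
      rw [norm_smul, hv i, mul_one, Real.norm_eq_abs, sq_abs]
    have h4 : ∑ i, (1 - x i ^ 2) = (Module.finrank ℝ E : ℝ) - ∑ i ∈ fr x, x i ^ 2 := by
      have h5 : ∑ i ∈ fr x, (1 - x i ^ 2) = ∑ i, (1 - x i ^ 2) := by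
        apply Finset.sum_subset (Finset.subset_univ _)
        intro i _ hi
        rcases (not_mem_fr x hx.1 i).mp hi with h | h <;> rw [h] <;> norm_num
      rw [← h5, Finset.sum_sub_distrib, Finset.sum_const, nsmul_eq_mul, mul_one, hx.2.2]
    rw [h3, h4] at h
    linarith
  · intro ε hε
    have hε2 : ∀ i, ε i ^ 2 = 1 := fun i => by rcases hε i with h | h <;> rw [h] <;> norm_num
    have hu : ∀ i, |x i + (1 - |x i|) * ε i| ≤ 1 := by
      intro i
      have h1 := hx.1 i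
      refine (abs_add_le _ _).trans ?_
      have h2 : |(1 - |x i|) * ε i| = 1 - |x i| := by
        rw [abs_mul, abs_of_nonneg (by linarith)]
        rcases hε i with h | h <;> rw [h] <;> simp
      rw [h2]; linarith
    obtain ⟨η, hη, hle⟩ := rounding v (fun i => x i + (1 - |x i|) * ε i) hu
    have h1 := H η hη
    have h2 : ∑ i, (x i + (1 - |x i|) * ε i) • v i = ∑ i, ε i • (1 - |x i|) • v i := by
      simp only [add_smul, Finset.sum_add_distrib]
      rw [hx.2.1, zero_add]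
      refine Finset.sum_congr rfl fun i _ => ?_
      rw [smul_smul, mul_comm]
    have h3 : ∑ i, (1 - (x i + (1 - |x i|) * ε i) ^ 2) * ‖v i‖ ^ 2 =
        (∑ i, (1 - x i ^ 2) - ∑ i, (1 - |x i|) ^ 2) - 2 * ∑ i, x i * (1 - |x i|) * ε i := by
      rw [← Finset.sum_sub_distrib, Finset.mul_sum, ← Finset.sum_sub_distrib]
      refine Finset.sum_congr rfl fun i _ => ?_
      rw [hv i]
      have := hε2 i
      have h6 : (1 - |x i|) ^ 2 * ε i ^ 2 = (1 - |x i|) ^ 2 := by rw [this, mul_one]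
      nlinarith
    rw [h2, h3] at hle
    linarith

theorem rb {κ : Type*} [Fintype κ] [DecidableEq κ] [FiniteDimensional ℝ E] (v : κ → E)
    (hv : ∀ i, ‖v i‖ = 1) (k : ℝ) (hk0 : 0 < k) (hk1 : k ≤ 1)
    (H : Long v (Module.finrank ℝ E - k)) (x : κ → ℝ) (hx : Bas v x) :
    (2 - k) * ‖cc v x‖ ^ 2 < k ^ 2 := by
  have h1 := rb_one v hv k H x hx
  have h2 := rb_two v hv k H x hx
  set y : κ → ℝ := fun i => if i ∈ fr x then inner ℝ (-cc v x) (v i) else 0 with hy
  let xt : κ → ℝ := fun i => if i ∈ fr x then x i else 0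
  have hxt : ∀ i, |xt i| ≤ 1 := by
    intro i
    show |(if i ∈ fr x then x i else 0)| ≤ 1
    split_ifs
    · exact hx.1 i
    · simp
  have hX : ∑ i, xt i ^ 2 = ∑ i ∈ fr x, x i ^ 2 := by
    have h4 : ∀ i, xt i ^ 2 = if i ∈ fr x then x i ^ 2 else 0 := by
      intro i
      show (if i ∈ fr x then x i else 0) ^ 2 = _
      split_ifs
      · rfl
      · norm_num
    rw [Finset.sum_congr rfl fun i _ => h4 i, Finset.sum_ite_mem, Finset.univ_inter]
  have hz : (fun i => xt i * (1 - |xt i|)) = fun i => x i * (1 - |x i|) := by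
    funext i
    show (if i ∈ fr x then x i else 0) * (1 - |(if i ∈ fr x then x i else 0)|) = _
    split_ifs with hi
    · rfl
    · rcases (not_mem_fr x hx.1 i).mp hi with h | h <;> rw [h] <;> simp
  have hstar := star xt y hxt (by rw [hX, hz]; linarith)
  rw [hX, hz] at hstar
  have hs : ∑ i, xt i * y i = ‖cc v x‖ ^ 2 := by
    have h4 : ∀ i, xt i * y i = if i ∈ fr x then inner ℝ (-cc v x) (x i • v i) else 0 := by
      intro i
      show (if i ∈ fr x then x i else 0) * (if i ∈ fr x then inner ℝ (-cc v x) (v i) else 0) = _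
      split_ifs
      · rw [inner_smul_right]
      · simp
    rw [Finset.sum_congr rfl fun i _ => h4 i, Finset.sum_ite_mem, Finset.univ_inter, ← inner_sum]
    have h5 : ∑ i ∈ fr x, x i • v i = - cc v x := by simp [cc]
    rw [h5, real_inner_self_eq_norm_sq, norm_neg]
  rw [hs] at hstar
  have hK : 0 ≤ Kh y := kh_nonneg y
  have h6 : ‖cc v x‖ ^ 2 ≤ k * Kh y :=
    hstar.trans (mul_le_mul_of_nonneg_right h2.le hK)
  nlinarith

end Pool.Agent.Lib.MP_1be6c9_co.Gold
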