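import Pool.Agent.Lib.MP_1be6c9_co.Gold.SzC

/-!
MODULE Star (about 130 lines). The inequality (STAR).

Let `z i = x i * (1 - |x i|)`, `X = ∑ x²`, `G = X + 2 Kh z`, `N = Kh y ≥ 0`. Used: `kh_ge_abs`
(`|y i| ≤ N`, `|z i| ≤ Kh z`) and `szarek` (`∑ y² ≤ 2 N²`, `∑ z² ≤ 2 (Kh z)²`).
If `κ` is empty both sides are `0` (the left side is an empty sum; `X = 0`, `Kh z = |0| = 0`, or
simply `0 ≤ G * N` since `G ≥ 0`, `N ≥ 0`). Otherwise let `m` be a label with `|x m| = M` maximal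
(`Finset.exists_max_image`), `0 ≤ M ≤ 1`.
CASE A, `2 M² ≤ X`. Let `r = sqrt X`, so `sqrt 2 * M ≤ r`. Cauchy-Schwarz:
`∑ x y ≤ r * sqrt (∑ y²) ≤ r * sqrt 2 * N`. Since `|z i| ≥ (1 - M) |x i|`:
`(1-M)² X ≤ ∑ z² ≤ 2 (Kh z)²`, so `2 Kh z ≥ sqrt 2 (1-M) r`, and
`G ≥ r² + sqrt 2 (1-M) r = r (r + sqrt 2 - sqrt 2 M) ≥ sqrt 2 r`. Hence `∑ x y ≤ G N`.
CASE B, `X < 2 M²`. Let `ξ = sqrt (X - M²)` (`X - M² = ∑_{i ≠ m} x i² ≥ 0`), so `0 ≤ ξ < M`;
`a = |y m|`, `ρ = sqrt (∑ y² - y m²)`. Cauchy-Schwarz on the labels `≠ m`: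
`∑ x y ≤ M a + ξ ρ`. `a ≤ N`; `a² + ρ² = ∑ y² ≤ 2 N²` and `(a + ρ)² ≤ 2 (a² + ρ²) ≤ 4 N²`, so
`ρ ≤ 2 N - a`. So `∑ x y ≤ M a + ξ (2N - a) = a (M - ξ) + 2 ξ N ≤ N (M + ξ)`.
`2 Kh z ≥ 2 |z m| = 2 M (1 - M)`, so `G ≥ M² + ξ² + 2M - 2M² = 2M - M² + ξ²`.
If `M + ξ ≤ 1`: `G - (M + ξ) ≥ (M - ξ)(1 - M - ξ) ≥ 0`, done. If `M + ξ > 1`: `ξ > 1 - M ≥ 0`, so
`G ≥ 2M - M² + (1-M)² = 1`, contradicting `G < 1`.
-/

namespace Pool.Agent.Lib.MP_1be6c9_co.Gold

open Finset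

private theorem Star_sqrt2 : Real.sqrt 2 ^ 2 = 2 := Real.sq_sqrt (by norm_num)

theorem star {κ : Type*} [Fintype κ] [DecidableEq κ] (x y : κ → ℝ) (hx : ∀ i, |x i| ≤ 1)
    (hG : ∑ i, x i ^ 2 + 2 * Kh (fun i => x i * (1 - |x i|)) < 1) :
    ∑ i, x i * y i ≤ (∑ i, x i ^ 2 + 2 * Kh (fun i => x i * (1 - |x i|))) * Kh y := by
  have hK0 : 0 ≤ Kh (fun i => x i * (1 - |x i|)) := by
    unfold Kh
    exact div_nonneg (sum_nonneg fun _ _ => abs_nonneg _) (by positivity)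
  have hN0 : 0 ≤ Kh y := by
    unfold Kh
    exact div_nonneg (sum_nonneg fun _ _ => abs_nonneg _) (by positivity)
  have hX0 : 0 ≤ ∑ i, x i ^ 2 := sum_nonneg fun _ _ => sq_nonneg _
  rcases isEmpty_or_nonempty κ with he | hne
  · simp only [univ_eq_empty, sum_empty] at hX0 ⊢
    positivity
  obtain ⟨m, -, hm⟩ := Finset.exists_max_image univ (fun i => |x i|) (univ_nonempty (α := κ))
  have hmax : ∀ i, |x i| ≤ |x m| := fun i => hm i (mem_univ i)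
  have hY : ∑ i, y i ^ 2 ≤ 2 * Kh y ^ 2 := szarek y
  have hZ : ∑ i, (x i * (1 - |x i|)) ^ 2 ≤ 2 * Kh (fun i => x i * (1 - |x i|)) ^ 2 :=
    szarek (fun i => x i * (1 - |x i|))
  have hyN : |y m| ≤ Kh y := kh_ge_abs y m
  have hzK : |x m * (1 - |x m|)| ≤ Kh (fun i => x i * (1 - |x i|)) :=
    kh_ge_abs (fun i => x i * (1 - |x i|)) m
  set K := Kh (fun i => x i * (1 - |x i|)) with hKdef
  set N := Kh y with hNdef
  set X := ∑ i, x i ^ 2 with hXdef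
  set M := |x m| with hM
  have hM0 : 0 ≤ M := abs_nonneg _
  have hM1 : M ≤ 1 := hx m
  have hxm : x m ^ 2 = M ^ 2 := (sq_abs (x m)).symm
  by_cases hc : 2 * M ^ 2 ≤ X
  · -- case A
    have hr0 : 0 ≤ Real.sqrt X := Real.sqrt_nonneg _
    have hr2 : Real.sqrt X ^ 2 = X := Real.sq_sqrt hX0
    set r := Real.sqrt X with hr
    have hs0 : 0 ≤ Real.sqrt 2 := Real.sqrt_nonneg _
    have hs2 : Real.sqrt 2 ^ 2 = 2 := Star_sqrt2
    set s := Real.sqrt 2 with hs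
    have hsM : s * M ≤ r := by
      apply le_of_sq_le_sq _ hr0
      rw [mul_pow, hs2, hr2]
      exact hc
    have h1 : (1 - M) ^ 2 * X ≤ ∑ i, (x i * (1 - |x i|)) ^ 2 := by
      rw [hXdef, mul_sum]
      refine sum_le_sum fun i _ => ?_
      rw [mul_pow, mul_comm]
      refine mul_le_mul_of_nonneg_left ?_ (sq_nonneg _)
      have h2 := hmax i
      have h3 : 0 ≤ 1 - M := by linarith
      exact pow_le_pow_left₀ h3 (by linarith) 2
    have h2 : (1 - M) * r ≤ s * K := by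
      apply le_of_sq_le_sq _ (mul_nonneg hs0 hK0)
      rw [mul_pow, mul_pow, hs2, hr2]
      linarith
    have h3 : s * (1 - M) * r ≤ 2 * K := by
      have := mul_le_mul_of_nonneg_left h2 hs0
      nlinarith
    have h4 : s * r ≤ X + 2 * K := by
      have h5 : 0 ≤ r * (r - s * M) := mul_nonneg hr0 (by linarith)
      nlinarith
    have h5 : ∑ i, x i * y i ≤ s * r * N := by
      have h6 : (∑ i, x i * y i) ^ 2 ≤ X * ∑ i, y i ^ 2 := sum_mul_sq_le_sq_mul_sq univ x y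
      apply le_of_sq_le_sq _ (mul_nonneg (mul_nonneg hs0 hr0) hN0)
      rw [mul_pow, mul_pow, hs2, hr2]
      calc (∑ i, x i * y i) ^ 2 ≤ X * ∑ i, y i ^ 2 := h6
        _ ≤ X * (2 * N ^ 2) := mul_le_mul_of_nonneg_left hY hX0
        _ = 2 * X * N ^ 2 := by ring
    exact h5.trans (mul_le_mul_of_nonneg_right h4 hN0)
  · -- case B
    push Not at hc
    have hXs : X = M ^ 2 + ∑ i ∈ univ.erase m, x i ^ 2 := by
      rw [hXdef, ← add_sum_erase univ (fun i => x i ^ 2) (mem_univ m), hxm]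
    have hYs : ∑ i, y i ^ 2 = |y m| ^ 2 + ∑ i ∈ univ.erase m, y i ^ 2 := by
      rw [← add_sum_erase univ (fun i => y i ^ 2) (mem_univ m), sq_abs]
    have hxy : ∑ i, x i * y i = x m * y m + ∑ i ∈ univ.erase m, x i * y i :=
      (add_sum_erase univ (fun i => x i * y i) (mem_univ m)).symm
    have hA0 : 0 ≤ ∑ i ∈ univ.erase m, x i ^ 2 := sum_nonneg fun _ _ => sq_nonneg _
    have hB0 : 0 ≤ ∑ i ∈ univ.erase m, y i ^ 2 := sum_nonneg fun _ _ => sq_nonneg _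
    have hCS := sum_mul_sq_le_sq_mul_sq (univ.erase m) x y
    set A := ∑ i ∈ univ.erase m, x i ^ 2 with hA
    set B := ∑ i ∈ univ.erase m, y i ^ 2 with hB
    have hξ0 : 0 ≤ Real.sqrt A := Real.sqrt_nonneg _
    have hξ2 : Real.sqrt A ^ 2 = A := Real.sq_sqrt hA0
    have hρ0 : 0 ≤ Real.sqrt B := Real.sqrt_nonneg _
    have hρ2 : Real.sqrt B ^ 2 = B := Real.sq_sqrt hB0
    set ξ := Real.sqrt A with hξ
    set ρ := Real.sqrt B with hρ
    have hξM : ξ < M := by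
      apply lt_of_pow_lt_pow_left₀ 2 hM0
      rw [hξ2]
      linarith
    have h1 : ∑ i ∈ univ.erase m, x i * y i ≤ ξ * ρ := by
      apply le_of_sq_le_sq _ (mul_nonneg hξ0 hρ0)
      rw [mul_pow, hξ2, hρ2]
      exact hCS
    have h2 : x m * y m ≤ M * |y m| := by
      calc x m * y m ≤ |x m * y m| := le_abs_self _
        _ = M * |y m| := abs_mul _ _
    have ha0 : 0 ≤ |y m| := abs_nonneg _
    set a := |y m| with ha
    have h3 : a + ρ ≤ 2 * N := by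
      apply le_of_sq_le_sq _ (by linarith)
      nlinarith [sq_nonneg (a - ρ)]
    have h4 : ∑ i, x i * y i ≤ N * (M + ξ) := by
      rw [hxy]
      have h5 : ξ * ρ ≤ ξ * (2 * N - a) := mul_le_mul_of_nonneg_left (by linarith) hξ0
      have h6 : 0 ≤ (N - a) * (M - ξ) := mul_nonneg (by linarith) (by linarith)
      nlinarith
    have h5 : M * (1 - M) ≤ K := by
      have h6 : |x m * (1 - M)| = M * (1 - M) := by
        rw [abs_mul, abs_of_nonneg (by linarith : (0 : ℝ) ≤ 1 - M)]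
      rw [← h6]
      exact hzK
    have h7 : M + ξ ≤ X + 2 * K := by
      rcases le_or_gt (M + ξ) 1 with h8 | h8
      · have h9 : 0 ≤ (M - ξ) * (1 - M - ξ) := mul_nonneg (by linarith) (by linarith)
        nlinarith
      · exfalso
        have h9 : (1 - M) ^ 2 ≤ ξ ^ 2 := pow_le_pow_left₀ (by linarith) (by linarith) 2
        nlinarith
    calc ∑ i, x i * y i ≤ N * (M + ξ) := h4
      _ ≤ N * (X + 2 * K) := mul_le_mul_of_nonneg_left h7 hN0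
      _ = (X + 2 * K) * N := mul_comm _ _

end Pool.Agent.Lib.MP_1be6c9_co.Gold
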