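import Pool.Agent.Lib.MP_1be6c9_co.Gold.Defs

/-!
MODULE SzA (about 110 lines). Spectral inequality on the cube, induction on `n`.

Write `Q n f = ∑ ε, ∑ i, f ε * (f ε - f (flip i ε))`, `A n f = ∑ ε, f ε * f (not ε)`.
Claim `3 ∑ f² + A n f - 4 (∑ f)² / 2^n ≤ Q n f`.
`n = 0`: one point, `3 f² + f² - 4 f² = 0 = Q`.
Step: for `f` on `Fin (n+1) → Bool` put `fT ε = f (Fin.cons true ε)`, `fF ε = f (Fin.cons false ε)`,
`g = (fT + fF)/2`, `h = (fT - fF)/2` (so `fT = g + h`, `fF = g - h`). Sums over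
`Fin (n+1) → Bool` split by `Fin.consEquiv` (or `Fin.insertNthEquiv`), `Fin.sum_univ_succ`,
`Fintype.sum_prod_type`, `Fintype.sum_bool`; `Function.update (Fin.cons b ε) 0 c = Fin.cons c ε`
(`Fin.update_cons_zero`), `Function.update (Fin.cons b ε) i.succ c = Fin.cons b (update ε i c)`
(`Fin.cons_update`). Then
`Q (n+1) f = ∑ (fT - fF)² + Q n fT + Q n fF = 4 ∑ h² + 2 Q n g + 2 Q n h` (the cross terms of the
quadratic form `Q n` cancel between `g + h` and `g - h`; pointwise identity by `ring`),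
`∑ f² = 2 ∑ g² + 2 ∑ h²`, `A (n+1) f = ∑ (fT ε * fF (not ε) + fF ε * fT (not ε))
= 2 A n g - 2 A n h`, `∑ f = 2 ∑ g`. By induction for `g` and `h`
`Q (n+1) f ≥ 4 ∑ h² + 6 ∑ g² + 2 A n g - 8 (∑ g)²/2^n + 6 ∑ h² + 2 A n h - 8 (∑ h)²/2^n`,
so it remains `4 ∑ h² + 4 A n h ≥ 8 (∑ h)²/2^n`. This is Cauchy-Schwarz: with
`k ε = h ε + h (not ε)`: `∑ k² = 2 ∑ h² + 2 A n h`, `∑ k = 2 ∑ h` (reindex by the involution `not`,
`Equiv.sum_comp`), `(∑ k)² ≤ 2^n ∑ k²` (`sq_sum_le_card_mul_sum_sq` or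
`Finset.sum_mul_sq_le_sq_mul_sq`, card of the cube is `2^n`).
-/

namespace Pool.Agent.Lib.MP_1be6c9_co.Gold

open Finset

private def cns {n : ℕ} (b : Bool) (ε : Fin n → Bool) : Fin (n + 1) → Bool :=
  Fin.cons (α := fun _ => Bool) b ε

private theorem sum_cube {n : ℕ} (F : (Fin (n + 1) → Bool) → ℝ) :
    ∑ ε, F ε = ∑ ε : Fin n → Bool, (F (cns true ε) + F (cns false ε)) := by
  rw [← (Fin.consEquiv (fun _ : Fin (n + 1) => Bool)).sum_comp, Fintype.sum_prod_type,
    Fintype.sum_bool, ← Finset.sum_add_distrib]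
  rfl

private theorem not_cns {n : ℕ} (b : Bool) (ε : Fin n → Bool) :
    (fun i => !(cns b ε i)) = cns (!b) (fun i => !(ε i)) := by
  funext i
  refine Fin.cases ?_ (fun j => ?_) i
  · rfl
  · rfl

private theorem upd_zero {n : ℕ} (b c : Bool) (ε : Fin n → Bool) :
    Function.update (cns b ε) 0 c = cns c ε := by
  funext i
  refine Fin.cases ?_ (fun j => ?_) i
  · simp [cns]
  · simp [cns, Function.update]

private theorem upd_succ {n : ℕ} (b c : Bool) (ε : Fin n → Bool) (j : Fin n) :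
    Function.update (cns b ε) j.succ c = cns b (Function.update ε j c) := by
  unfold cns
  exact (Fin.cons_update (α := fun _ => Bool) b ε j c).symm

private theorem csx (n : ℕ) (h : (Fin n → Bool) → ℝ) :
    8 * (∑ ε, h ε) ^ 2 / 2 ^ n ≤ 4 * ∑ ε, h ε ^ 2 + 4 * ∑ ε, h ε * h (fun i => !(ε i)) := by
  have hinv : ∀ F : (Fin n → Bool) → ℝ, ∑ ε : Fin n → Bool, F (fun i => !(ε i)) = ∑ ε, F ε := by
    intro F
    let e : (Fin n → Bool) ≃ (Fin n → Bool) :=
      ⟨fun ε i => !(ε i), fun ε i => !(ε i), fun ε => by funext i; simp, fun ε => by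
        funext i; simp⟩
    exact e.sum_comp F
  have h1 : ∑ ε : Fin n → Bool, (h ε + h (fun i => !(ε i))) = 2 * ∑ ε, h ε := by
    rw [Finset.sum_add_distrib, hinv h]; ring
  have h2 : ∑ ε : Fin n → Bool, (h ε + h (fun i => !(ε i))) ^ 2 =
      2 * ∑ ε, h ε ^ 2 + 2 * ∑ ε, h ε * h (fun i => !(ε i)) := by
    have : ∀ ε : Fin n → Bool, (h ε + h (fun i => !(ε i))) ^ 2 =
        h ε ^ 2 + h (fun i => !(ε i)) ^ 2 + 2 * (h ε * h (fun i => !(ε i))) := fun ε => by ring
    rw [Finset.sum_congr rfl (fun ε _ => this ε), Finset.sum_add_distrib, Finset.sum_add_distrib,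
      hinv (fun ε => h ε ^ 2), ← Finset.mul_sum]
    ring
  have h3 := sq_sum_le_card_mul_sum_sq (s := (Finset.univ : Finset (Fin n → Bool)))
    (f := fun ε => h ε + h (fun i => !(ε i)))
  rw [h1, h2] at h3
  have hcard : ((Finset.univ : Finset (Fin n → Bool)).card : ℝ) = 2 ^ n := by
    rw [Finset.card_univ, Fintype.card_fun, Fintype.card_bool, Fintype.card_fin]
    push_cast; ring
  rw [hcard] at h3
  have hp : (0 : ℝ) < 2 ^ n := by positivity
  rw [div_le_iff₀ hp]
  nlinarith [h3]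

theorem szA (n : ℕ) (f : (Fin n → Bool) → ℝ) :
    3 * ∑ ε, f ε ^ 2 + ∑ ε, f ε * f (fun i => !(ε i)) - 4 * (∑ ε, f ε) ^ 2 / 2 ^ n ≤
      ∑ ε : Fin n → Bool, ∑ i, f ε * (f ε - f (Function.update ε i (!(ε i)))) := by
  induction n with
  | zero =>
    have h1 : ∀ ε : Fin 0 → Bool, (fun i => !(ε i)) = ε := fun ε => by
      funext i; exact i.elim0
    simp only [Fintype.sum_unique, Finset.univ_eq_empty, Finset.sum_empty, h1, pow_zero, div_one]
    nlinarith
  | succ n ih =>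
    set g : (Fin n → Bool) → ℝ := fun ε => (f (cns true ε) + f (cns false ε)) / 2 with hg
    set h : (Fin n → Bool) → ℝ := fun ε => (f (cns true ε) - f (cns false ε)) / 2 with hh
    have hT : ∀ ε, f (cns true ε) = g ε + h ε := fun ε => by simp only [hg, hh]; ring
    have hF : ∀ ε, f (cns false ε) = g ε - h ε := fun ε => by simp only [hg, hh]; ring
    have hS : ∑ ε : Fin (n + 1) → Bool, f ε ^ 2 = 2 * ∑ ε, g ε ^ 2 + 2 * ∑ ε, h ε ^ 2 := by
      rw [sum_cube, Finset.mul_sum, Finset.mul_sum, ← Finset.sum_add_distrib]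
      refine Finset.sum_congr rfl fun ε _ => ?_
      rw [hT, hF]; ring
    have hL : ∑ ε : Fin (n + 1) → Bool, f ε = 2 * ∑ ε, g ε := by
      rw [sum_cube, Finset.mul_sum]
      refine Finset.sum_congr rfl fun ε _ => ?_
      rw [hT, hF]; ring
    have hA : ∑ ε : Fin (n + 1) → Bool, f ε * f (fun i => !(ε i)) =
        2 * ∑ ε, g ε * g (fun i => !(ε i)) - 2 * ∑ ε, h ε * h (fun i => !(ε i)) := by
      rw [sum_cube, Finset.mul_sum, Finset.mul_sum, ← Finset.sum_sub_distrib]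
      refine Finset.sum_congr rfl fun ε _ => ?_
      rw [not_cns, not_cns]
      simp only [Bool.not_true, Bool.not_false]
      rw [hT, hF, hT, hF]; ring
    have hQ : ∑ ε : Fin (n + 1) → Bool, ∑ i, f ε * (f ε - f (Function.update ε i (!(ε i)))) =
        4 * ∑ ε, h ε ^ 2 +
        2 * (∑ ε : Fin n → Bool, ∑ i, g ε * (g ε - g (Function.update ε i (!(ε i))))) +
        2 * (∑ ε : Fin n → Bool, ∑ i, h ε * (h ε - h (Function.update ε i (!(ε i))))) := by
      rw [sum_cube, Finset.mul_sum, Finset.mul_sum, Finset.mul_sum, ← Finset.sum_add_distrib,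
        ← Finset.sum_add_distrib]
      refine Finset.sum_congr rfl fun ε _ => ?_
      rw [Fin.sum_univ_succ, Fin.sum_univ_succ, upd_zero, upd_zero]
      have h0 : ∀ b : Bool, cns b ε 0 = b := fun b => rfl
      have hs : ∀ (b : Bool) (j : Fin n), cns b ε j.succ = ε j := fun b j => rfl
      simp only [h0, hs, upd_succ, Bool.not_true, Bool.not_false, hT, hF]
      rw [Finset.mul_sum, Finset.mul_sum]
      have : ∀ x y u v a : ℝ, a + u + v = a + (u + v) := fun _ _ _ _ _ => by ring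
      have e1 : ∑ x : Fin n, (g ε + h ε) *
          (g ε + h ε - (g (Function.update ε x (!(ε x))) + h (Function.update ε x (!(ε x))))) +
          ∑ x : Fin n, (g ε - h ε) *
          (g ε - h ε - (g (Function.update ε x (!(ε x))) - h (Function.update ε x (!(ε x))))) =
          ∑ x : Fin n, 2 * (g ε * (g ε - g (Function.update ε x (!(ε x))))) +
          ∑ x : Fin n, 2 * (h ε * (h ε - h (Function.update ε x (!(ε x))))) := by
        rw [← Finset.sum_add_distrib, ← Finset.sum_add_distrib]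
        refine Finset.sum_congr rfl fun x _ => ?_
        ring
      linear_combination e1
    rw [hS, hL, hA, hQ]
    have i1 := ih g
    have i2 := ih h
    have i3 := csx n h
    have hp : (4 : ℝ) * (2 * ∑ ε, g ε) ^ 2 / 2 ^ (n + 1) = 2 * (4 * (∑ ε, g ε) ^ 2 / 2 ^ n) := by
      rw [pow_succ]
      field_simp
      ring
    have hq : (8 : ℝ) * (∑ ε, h ε) ^ 2 / 2 ^ n = 2 * (4 * (∑ ε, h ε) ^ 2 / 2 ^ n) := by ring
    rw [hp]
    rw [hq] at i3
    linarith

end Pool.Agent.Lib.MP_1be6c9_co.Gold
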