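import Pool.Agent.Lib.MP_1be6c9_co.Gold.SzA
import Pool.Agent.Lib.MP_1be6c9_co.Gold.Mom

/-!
MODULE SzB (about 80 lines). Szarek's inequality (Khinchine, `L1`-`L2`, constant `sqrt 2`) on
`Fin n`, proof of Latala and Oleszkiewicz.

Let `f ε = |S ε|`, `S ε = ∑ a i * sg (ε i)`. `S (update ε i (!(ε i))) = S ε - 2 a i sg (ε i)`, so
`∑_i f (update ε i (!(ε i))) ≥ |∑_i (S ε - 2 a i sg (ε i))| = |(n - 2) S ε| ≥ (n - 2) f ε`
(`Finset.abs_sum_le_sum_abs`, and `|n - 2| ≥ n - 2`). Hence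
`∑_i f ε (f ε - f (flip)) ≤ f ε (n f ε - (n-2) f ε) = 2 (f ε)²`.
`f (not ε) = f ε` (`sg_not`). `szA` gives `4 ∑ f² - 4 (∑ f)²/2^n ≤ 2 ∑ f²`, i.e.
`∑ f² ≤ 2 (∑ f)²/2^n`. By `mom` with `E = ℝ`, `w = a`: `∑ f² = 2^n ∑ a i ^ 2`
(`norm_eq_abs, sq_abs`, `smul_eq_mul`, `mul_comm`). Since `Kh a = (∑ f)/2^n` (card `Fin n` is `n`),
dividing by `2^n` gives the claim.
-/

namespace Pool.Agent.Lib.MP_1be6c9_co.Gold

open Finset

private theorem SzB_flip (n : ℕ) (a : Fin n → ℝ) (ε : Fin n → Bool) (i : Fin n) :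
    ∑ l, a l * sg (Function.update ε i (!(ε i)) l) = (∑ l, a l * sg (ε l)) - 2 * (a i * sg (ε i)) := by
  have h1 : ∑ l, a l * sg (Function.update ε i (!(ε i)) l) =
      ∑ l, (a l * sg (ε l) - if l = i then 2 * (a i * sg (ε i)) else 0) := by
    refine Finset.sum_congr rfl fun l _ => ?_
    by_cases h : l = i
    · subst h
      rw [Function.update_self, sg_not, if_pos rfl]
      ring
    · rw [Function.update_of_ne h, if_neg h, sub_zero]
  rw [h1, Finset.sum_sub_distrib, Finset.sum_ite_eq' Finset.univ i, if_pos (Finset.mem_univ i)]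

private theorem SzB_low (n : ℕ) (a : Fin n → ℝ) (ε : Fin n → Bool) :
    ((n : ℝ) - 2) * |∑ l, a l * sg (ε l)| ≤
      ∑ i, |∑ l, a l * sg (Function.update ε i (!(ε i)) l)| := by
  have h1 : ∑ i, ((∑ l, a l * sg (ε l)) - 2 * (a i * sg (ε i))) =
      ((n : ℝ) - 2) * ∑ l, a l * sg (ε l) := by
    rw [Finset.sum_sub_distrib, Finset.sum_const, ← Finset.mul_sum, Finset.card_univ,
      Fintype.card_fin, nsmul_eq_mul]
    ring
  calc ((n : ℝ) - 2) * |∑ l, a l * sg (ε l)|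
      ≤ |(n : ℝ) - 2| * |∑ l, a l * sg (ε l)| :=
        mul_le_mul_of_nonneg_right (le_abs_self _) (abs_nonneg _)
    _ = |∑ i, ((∑ l, a l * sg (ε l)) - 2 * (a i * sg (ε i)))| := by rw [h1, abs_mul]
    _ ≤ ∑ i, |(∑ l, a l * sg (ε l)) - 2 * (a i * sg (ε i))| := Finset.abs_sum_le_sum_abs _ _
    _ = ∑ i, |∑ l, a l * sg (Function.update ε i (!(ε i)) l)| := by
        refine Finset.sum_congr rfl fun i _ => ?_
        rw [SzB_flip]

theorem szB (n : ℕ) (a : Fin n → ℝ) : ∑ i, a i ^ 2 ≤ 2 * Kh a ^ 2 := by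
  set f : (Fin n → Bool) → ℝ := fun ε => |∑ l, a l * sg (ε l)| with hf
  have hnot : ∀ ε : Fin n → Bool, f (fun i => !(ε i)) = f ε := by
    intro ε
    simp only [hf, sg_not, mul_neg, Finset.sum_neg_distrib, abs_neg]
  have hA := szA n f
  have hq : ∀ ε : Fin n → Bool, ∑ i, f ε * (f ε - f (Function.update ε i (!(ε i)))) ≤
      2 * f ε ^ 2 := by
    intro ε
    have h0 : 0 ≤ f ε := abs_nonneg _
    have h1 := SzB_low n a ε
    have h2 : ∑ i, f ε * (f ε - f (Function.update ε i (!(ε i)))) =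
        f ε * ((n : ℝ) * f ε - ∑ i, f (Function.update ε i (!(ε i)))) := by
      rw [← Finset.mul_sum, Finset.sum_sub_distrib, Finset.sum_const, Finset.card_univ,
        Fintype.card_fin, nsmul_eq_mul]
    rw [h2]
    have h3 : (n : ℝ) * f ε - ∑ i, f (Function.update ε i (!(ε i))) ≤ 2 * f ε := by
      have : ((n : ℝ) - 2) * f ε ≤ ∑ i, f (Function.update ε i (!(ε i))) := h1
      linarith
    nlinarith [mul_le_mul_of_nonneg_left h3 h0]
  have hsum : ∑ ε : Fin n → Bool, ∑ i, f ε * (f ε - f (Function.update ε i (!(ε i)))) ≤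
      2 * ∑ ε, f ε ^ 2 := by
    rw [Finset.mul_sum]
    exact Finset.sum_le_sum fun ε _ => hq ε
  have hself : ∑ ε, f ε * f (fun i => !(ε i)) = ∑ ε, f ε ^ 2 := by
    refine Finset.sum_congr rfl fun ε _ => ?_
    rw [hnot, sq]
  rw [hself] at hA
  have hK : Kh a = (∑ ε, f ε) / 2 ^ n := by
    unfold Kh
    rw [Fintype.card_fin]
  have hmom : ∑ ε, f ε ^ 2 = 2 ^ n * ∑ i, a i ^ 2 := by
    have h := mom a
    rw [Fintype.card_fin] at h
    have e1 : ∀ ε : Fin n → Bool, ‖∑ i, sg (ε i) • a i‖ ^ 2 = f ε ^ 2 := by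
      intro ε
      have : ∑ i, sg (ε i) • a i = ∑ l, a l * sg (ε l) :=
        Finset.sum_congr rfl fun i _ => by rw [smul_eq_mul, mul_comm]
      rw [this, Real.norm_eq_abs]
    have e2 : ∀ i, ‖a i‖ ^ 2 = a i ^ 2 := fun i => by rw [Real.norm_eq_abs, sq_abs]
    simp only [e1, e2] at h
    exact h
  have h2n : (0 : ℝ) < 2 ^ n := by positivity
  have key : 2 ^ n * ∑ i, a i ^ 2 ≤ 2 * ((∑ ε, f ε) ^ 2 / 2 ^ n) := by
    rw [← hmom]
    have e : 4 * (∑ ε, f ε) ^ 2 / 2 ^ n = 4 * ((∑ ε, f ε) ^ 2 / 2 ^ n) := by ring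
    rw [e] at hA
    linarith
  rw [hK, div_pow]
  have e2 : 2 * ((∑ ε, f ε) ^ 2 / (2 ^ n) ^ 2) = (2 * ((∑ ε, f ε) ^ 2 / 2 ^ n)) / 2 ^ n := by
    field_simp
  rw [e2, le_div_iff₀ h2n]
  linarith

end Pool.Agent.Lib.MP_1be6c9_co.Gold
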