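import Pool.Agent.Lib.MP_1be6c9_co.Gold.SzB

/-!
MODULE SzC (about 40 lines). Transport of `szB` to an arbitrary finite type.

`e : κ ≃ Fin (Fintype.card κ) := Fintype.equivFin κ`, `b = a ∘ e.symm`. `∑ b i ^ 2 = ∑ a i ^ 2` by
`Equiv.sum_comp`. `Kh b = Kh a`: `Fintype.card (Fin n) = n`, and the sum over
`Fin n → Bool` is reindexed by `e.arrowCongr (Equiv.refl Bool)` (or `Equiv.piCongrLeft`):
`∑ i, b i * sg (ε (e.symm i)) = ∑ i, a i * sg (ε i)`.
-/

namespace Pool.Agent.Lib.MP_1be6c9_co.Gold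

open Finset

theorem szarek {κ : Type*} [Fintype κ] [DecidableEq κ] (a : κ → ℝ) :
    ∑ i, a i ^ 2 ≤ 2 * Kh a ^ 2 := by
  classical
  let e : κ ≃ Fin (Fintype.card κ) := Fintype.equivFin κ
  have h := szB (Fintype.card κ) (fun i => a (e.symm i))
  have h1 : ∑ i, a (e.symm i) ^ 2 = ∑ i, a i ^ 2 := Equiv.sum_comp e.symm (fun i => a i ^ 2)
  have h2 : Kh (fun i => a (e.symm i)) = Kh a := by
    unfold Kh
    rw [Fintype.card_fin]
    congr 1
    have h3 := Equiv.sum_comp (e.arrowCongr (Equiv.refl Bool))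
      (fun ε : Fin (Fintype.card κ) → Bool => |∑ i, a (e.symm i) * sg (ε i)|)
    rw [← h3]
    refine Finset.sum_congr rfl fun ε _ => ?_
    congr 1
    have h4 := Equiv.sum_comp e.symm (fun i => a i * sg (ε i))
    rw [← h4]
    rfl
  rw [h1, h2] at h
  exact h

end Pool.Agent.Lib.MP_1be6c9_co.Gold
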